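import Pool.Agent.N646.RG.Stm
import Pool.Agent.N646.RG.Lam

/-! Project RG, part HIT2: one configuration of forms `± n + c`, from `lamR1` (follows
`Pool/Agent/N2/RQ_HIT.lean`, the case of the forms `n + M₀ H`). -/

set_option autoImplicit false

namespace Pool.Agent.N646.RG.Hit

open Finset Filter Topology
open Pool.Agent.N646.RO (Rgh)
open Pool.Agent.N646.RG.Lam Pool.Agent.N646.RG

/-- fibres of `y ↦ y + s y` -/
theorem fib_le (F : Finset ℕ) (s : ℕ → ℕ) (s₀ : ℕ) (hs : ∀ y ∈ F, s y ≤ s₀) (t : Finset ℕ)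
    (ht : ∀ y ∈ F, y + s y ∈ t) : F.card ≤ (s₀ + 1) * t.card := by
  refine Finset.card_le_mul_card_image_of_maps_to ht (s₀ + 1) ?_
  intro b _
  have h1 : F.filter (fun y => y + s y = b) ⊆ Icc (b - s₀) b := by
    intro y hy
    obtain ⟨h2, h3⟩ := mem_filter.1 hy
    have h4 := hs y h2
    exact mem_Icc.2 (by omega)
  refine (card_le_card h1).trans ?_
  rw [Nat.card_Icc]
  omega

open Classical in
theorem main : S_HIT2 := by
  intro T M hT hTM
  obtain ⟨K, hK, δ, hδ, H0⟩ := lamR1 T M hT hTM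
  obtain ⟨s₀, c, hc, H1⟩ := H0 1
  have hcardQ : (univ : Finset (Finset (Fin T) × (Fin T → Fin K))).card = 2 ^ T * K ^ T := by
    rw [card_univ, Fintype.card_prod, Fintype.card_finset, Fintype.card_fin, Fintype.card_fun,
      Fintype.card_fin, Fintype.card_fin]
  set P : ℕ := 2 ^ T * K ^ T with hP
  have hP0 : 0 < P := by rw [hP]; positivity
  have hP0r : (0 : ℝ) < P := by exact_mod_cast hP0
  refine ⟨K, s₀, hK, δ, c / (2 * P * (s₀ + 1)), hδ, by positivity, ?_⟩
  have hlog : Tendsto (fun N : ℕ => Real.log N) atTop atTop :=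
    Real.tendsto_log_atTop.comp tendsto_natCast_atTop_atTop
  have hlogN : ∀ᶠ N : ℕ in atTop, Real.log N ≤ N / 200 := by
    have h1 := Real.isLittleO_log_id_atTop.def (c := 1 / 200) (by norm_num)
    filter_upwards [tendsto_natCast_atTop_atTop.eventually h1, eventually_ge_atTop 1] with N h2 h3
    have h4 : (1 : ℝ) ≤ N := by exact_mod_cast h3
    rw [Real.norm_of_nonneg (Real.log_nonneg h4), id, Real.norm_of_nonneg (by linarith)] at h2
    linarith
  filter_upwards [H1, hlogN, hlog.eventually_ge_atTop 2, eventually_ge_atTop 2,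
    eventually_ge_atTop (200 * (s₀ + 3))] with N hN hN1 hN2 hN3 hN4
  intro f hinj hA hloc
  set L : ℕ := ⌊Real.log N⌋₊ with hL
  have hL1 : (L : ℝ) ≤ Real.log N := Nat.floor_le (by linarith)
  have hL2 : Real.log N < L + 1 := Nat.lt_floor_add_one _
  have hLN : 200 * L ≤ N := by
    have : (200 * L : ℝ) ≤ N := by linarith
    exact_mod_cast this
  have hLNr : (200 * L : ℝ) ≤ N := by linarith
  have hNr : (2 : ℝ) ≤ N := by exact_mod_cast hN3
  have key : ∀ y : ℕ, y ∈ Icc 1 L → ∃ (s : ℕ) (S : Finset (Fin T)) (σ : Fin T → Fin K), s ≤ s₀ ∧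
      M + 1 ≤ S.card ∧ c * (N / (Real.log N) ^ (T * K + 1)) ≤
        ((Rs' (fun g i => ((f (g, i)).1, (f (g, i)).2 + (f (g, i)).1 * y)) δ s S σ N).card : ℝ) := by
    intro y hy
    obtain ⟨hy1, hy2⟩ := mem_Icc.1 hy
    obtain ⟨s, S, σ, h1, _, _, h2, h3⟩ := hN (fun g i => ((f (g, i)).1, (f (g, i)).2 + (f (g, i)).1 * y)) (by
      rintro ⟨a, b⟩ ⟨a', b'⟩ h
      simp only [Prod.mk.injEq] at h
      obtain ⟨h1, h2⟩ := h
      rw [h1] at h2
      have h3 : (f (a, b)).2 = (f (a', b')).2 := by linarith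
      exact hinj (Prod.ext h1 h3)) (by
      intro g i
      obtain ⟨a1, a2, a3⟩ := hA (g, i)
      have e2 : (y : ℝ) ≤ L := by exact_mod_cast hy2
      have e2' : (200 : ℤ) * y ≤ N := by
        have : 200 * y ≤ N := by omega
        exact_mod_cast this
      have e4 : (0 : ℤ) ≤ (y : ℤ) := by positivity
      refine ⟨?_, ?_, ?_, ?_, ?_⟩
      · show (f (g, i)).1 ≠ 0
        rcases a1 with h | h <;> rw [h] <;> norm_num
      · show |(f (g, i)).1| ≤ ((1 : ℕ) : ℤ)
        rcases a1 with h | h <;> rw [h] <;> norm_num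
      · show |(f (g, i)).2 + (f (g, i)).1 * (y : ℤ)| ≤ (N : ℤ)
        have h5 : |(f (g, i)).1 * (y : ℤ)| ≤ y := by
          rcases a1 with h | h <;> rw [h]
          · rw [one_mul, abs_of_nonneg e4]
          · rw [neg_one_mul, abs_neg, abs_of_nonneg e4]
        have h6 := abs_add_le (f (g, i)).2 ((f (g, i)).1 * (y : ℤ))
        omega
      · show IsCoprime (f (g, i)).1 _
        rcases a1 with h | h <;> rw [h]
        · exact isCoprime_one_left
        · exact isCoprime_one_left.neg_left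
      · intro t ht1 ht2
        have h5 := a3 t ht1 ht2
        have h7 : (-(y : ℝ)) ≤ (((f (g, i)).1 : ℤ) : ℝ) * y := by
          have e5 : (0 : ℝ) ≤ (y : ℝ) := by positivity
          rcases a1 with h | h <;> rw [h]
          · push_cast; linarith
          · push_cast; linarith
        show (N : ℝ) / 24 ≤ (((f (g, i)).1 : ℤ) : ℝ) * t + (((f (g, i)).2 + (f (g, i)).1 * (y : ℤ) : ℤ) : ℝ)
        push_cast
        linarith) (by
      intro p hp hpk
      obtain ⟨r, hr⟩ := hloc p hp hpk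
      refine ⟨r - y, ?_⟩
      intro g i hdvd
      apply hr (g, i)
      have h4 : (f (g, i)).1 * (r - y) + ((f (g, i)).2 + (f (g, i)).1 * y) = (f (g, i)).1 * r + (f (g, i)).2 := by ring
      simp only at hdvd
      rw [h4] at hdvd
      exact hdvd)
    exact ⟨s, S, σ, h1, h2, h3⟩
  have : Nonempty (Fin K) := ⟨⟨0, by omega⟩⟩
  choose! s S σ hs hS hcard using key
  set R : ℕ → Finset ℕ := fun y =>
    Rs' (fun g i => ((f (g, i)).1, (f (g, i)).2 + (f (g, i)).1 * y)) δ (s y) (S y) (σ y) N with hR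
  set X : ℝ := c * (N / (Real.log N) ^ (T * K + 1)) with hX
  have hlogpos : 0 < Real.log N := by linarith
  have hX0 : 0 < X := by rw [hX]; positivity
  have hL0 : 1 ≤ L := Nat.le_floor (by push_cast; linarith)
  have hLr : (1 : ℝ) ≤ L := by exact_mod_cast hL0
  -- pigeonhole
  have htot : ∑ q : Finset (Fin T) × (Fin T → Fin K), (L * X / P : ℝ) ≤
      ∑ q : Finset (Fin T) × (Fin T → Fin K),
        ∑ y ∈ (Icc 1 L).filter (fun y => (S y, σ y) = q), ((R y).card : ℝ) := by
    rw [Finset.sum_fiberwise_of_maps_to (fun _ _ => mem_univ _), sum_const, hcardQ, nsmul_eq_mul,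
      mul_div_cancel₀ _ hP0r.ne']
    calc (L * X : ℝ) = ∑ y ∈ Icc 1 L, X := by simp
      _ ≤ _ := sum_le_sum fun y hy => hcard y hy
  obtain ⟨q, _, hq⟩ := exists_le_of_sum_le univ_nonempty htot
  set fib : Finset ℕ := (Icc 1 L).filter (fun y => (S y, σ y) = q) with hfib
  have hne : fib.Nonempty := by
    rw [nonempty_iff_ne_empty]
    intro h0
    rw [h0, sum_empty] at hq
    have : 0 < (L * X / P : ℝ) := by positivity
    linarith
  obtain ⟨y₀, hy₀⟩ := hne
  obtain ⟨hy₀1, hy₀2⟩ := mem_filter.1 hy₀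
  refine ⟨q.1, q.2, ?_, ?_⟩
  · rw [← hy₀2]
    exact hS y₀ hy₀1
  set G : Finset ℕ := (IN N).filter (fun n : ℕ => (∀ x, Rgh δ N (ev (f x) n)) ∧
            ∀ g ∈ q.1, (ev (f (g, q.2 g)) n).toNat.Prime) with hG
  have hmem : ∀ y ∈ fib, ∀ n ∈ R y, n + y ∈ G ∧ Rgh δ N (((n + y : ℕ) : ℤ) - ((y + s y : ℕ) : ℤ)) := by
    intro y hy n hn
    obtain ⟨hy1, hy2⟩ := mem_filter.1 hy
    obtain ⟨hy3, hy4⟩ := mem_Icc.1 hy1
    have hq1 : S y = q.1 := by rw [← hy2]
    have hq2 : σ y = q.2 := by rw [← hy2]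
    have hsy := hs y hy1
    simp only [hR, Rs', mem_filter, mem_Icc] at hn
    obtain ⟨⟨hn1, hn2⟩, hn3, hn3', hn4, hn5, hn6⟩ := hn
    refine ⟨?_, ?_⟩
    · rw [hG, mem_filter, IN, mem_Icc]
      refine ⟨⟨?_, ?_⟩, ?_, ?_⟩
      · have h1 : ((N / 18 : ℕ) : ℝ) ≤ N / 18 := by
          have := @Nat.cast_div_le ℝ _ _ _ N 18
          simpa using this
        have h2 : ((N / 18 : ℕ) : ℝ) ≤ n := by linarith
        have h3 : N / 18 ≤ n := by exact_mod_cast h2
        omega
      · have h1 : 2 * n ≤ N + 2 * s y := by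
          have : (2 : ℝ) * n ≤ N + 2 * s y := by linarith
          exact_mod_cast this
        omega
      · rintro ⟨g, i⟩ p hp hpl hdvd
        apply hn5 g i p hp hpl
        have e : (f (g, i)).1 * (n : ℤ) + ((f (g, i)).2 + (f (g, i)).1 * y) = ev (f (g, i)) (n + y) := by
          unfold ev
          push_cast; ring
        show (p : ℤ) ∣ (f (g, i)).1 * (n : ℤ) + ((f (g, i)).2 + (f (g, i)).1 * y)
        rw [e]
        exact hdvd
      · intro g hg
        have h1 := hn6 g (by rw [hq1]; exact hg)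
        rw [hq2] at h1
        have e : (f (g, q.2 g)).1 * (n : ℤ) + ((f (g, q.2 g)).2 + (f (g, q.2 g)).1 * y) =
            ev (f (g, q.2 g)) (n + y) := by
          unfold ev
          push_cast; ring
        rw [e] at h1
        exact h1
    · intro p hp hpl hdvd
      apply hn4 p hp hpl
      have e : (n : ℤ) - s y = ((n + y : ℕ) : ℤ) - ((y + s y : ℕ) : ℤ) := by push_cast; ring
      rw [e]
      exact hdvd
  set W : ℕ → ℕ := fun n =>
    ((range (L + s₀ + 1)).filter (fun j : ℕ => Rgh δ N (n - j))).card with hW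
  have hcount : ∑ y ∈ fib, (R y).card ≤ (s₀ + 1) * ∑ n ∈ G, W n := by
    calc ∑ y ∈ fib, (R y).card
        ≤ ∑ y ∈ fib, (bipartiteAbove (fun y n' => ∃ n ∈ R y, n + y = n') G y).card := by
          refine sum_le_sum fun y hy => ?_
          refine card_le_card_of_injOn (fun n => n + y) ?_ ?_
          · intro n hn
            simp only [coe_bipartiteAbove, Set.mem_ofPred_eq]
            exact ⟨(hmem y hy n hn).1, n, hn, rfl⟩
          · intro a _ b _ hab
            simpa using hab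
      _ = ∑ n' ∈ G, (bipartiteBelow (fun y n' => ∃ n ∈ R y, n + y = n') fib n').card :=
          sum_card_bipartiteAbove_eq_sum_card_bipartiteBelow _
      _ ≤ ∑ n' ∈ G, (s₀ + 1) * W n' := by
          refine sum_le_sum fun n' _ => ?_
          refine fib_le _ s s₀ ?_ _ ?_
          · intro y hy
            exact hs y (mem_filter.1 (mem_filter.1 hy).1).1
          · intro y hy
            obtain ⟨hy1, n, hn, rfl⟩ := mem_filter.1 hy
            have h1 := (mem_Icc.1 (mem_filter.1 hy1).1).2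
            have h2 := hs y (mem_filter.1 hy1).1
            refine mem_filter.2 ⟨mem_range.2 (by omega), (hmem y hy1 n hn).2⟩
      _ = (s₀ + 1) * ∑ n ∈ G, W n := by rw [mul_sum]
  have hcount' : (∑ y ∈ fib, ((R y).card : ℝ)) ≤ (s₀ + 1) * ∑ n ∈ G, (W n : ℝ) := by
    exact_mod_cast hcount
  have hX2 : (Real.log N) * X = c * (N / (Real.log N) ^ (T * K)) := by
    rw [hX, pow_succ]
    field_simp
  have hs0 : (0 : ℝ) < s₀ + 1 := by positivity
  have h1 : c / 2 * (N / (Real.log N) ^ (T * K)) ≤ L * X := by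
    have h2 : Real.log N / 2 ≤ L := by linarith
    calc c / 2 * (N / (Real.log N) ^ (T * K)) = Real.log N / 2 * X := by
          rw [← mul_left_inj' (two_ne_zero' ℝ)]
          linear_combination -hX2
      _ ≤ L * X := by gcongr
  calc c / (2 * P * (s₀ + 1)) * (N / (Real.log N) ^ (T * K))
      = (c / 2 * (N / (Real.log N) ^ (T * K))) / P / (s₀ + 1) := by
        field_simp
    _ ≤ (L * X) / P / (s₀ + 1) := by gcongr
    _ ≤ (∑ y ∈ fib, ((R y).card : ℝ)) / (s₀ + 1) := by gcongr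
    _ ≤ ∑ n ∈ G, (W n : ℝ) := by
        rw [div_le_iff₀ hs0, mul_comm]
        exact hcount'

end Pool.Agent.N646.RG.Hit
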