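import Pool.Agent.N646.RG.MainG
import Pool.Agent.N646.RG.MainP
import Pool.Agent.N646.RG.Hit
import Pool.Agent.N646.RO.All
import Pool.Agent.N434.RG_E22
import Pool.Agent.N31.RG_HITM2
import Pool.Agent.N123.RG_POL
import Pool.Agent.N316.RG_WB2
import Pool.Agent.N700.RG_E12

/-!
# Project RG: the right order of magnitude for the forms `± n + c`

Assembly of the parts (helpers 646, 434, 31, 123, 316, 700 and the parts of project RQ).
-/

set_option autoImplicit false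

namespace Pool.Agent.N646.RG

open Finset Filter Topology

theorem sWB2 : S_WB2 := Pool.Agent.N316.RGWB2.main Pool.Agent.N646.RO.sWB

theorem sE12 : S_E12 := Pool.Agent.N700.RG_E12.main sWB2 Pool.Agent.N646.RO.sBB

theorem sHITM2 (k : ℕ) : S_HITM2 k :=
  Pool.Agent.N31.RG_HITM2.main Hit.main sE12 k (Pool.Agent.N434.RGE22.main sWB2 k)

/-- every window has Goldbach sums of the right order, or almost all even differences are good -/
theorem goldbach_final (ε lam : ℝ) (hε : 0 < ε) (hlam : 0 < lam) :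
    ∃ κ : ℝ, 0 < κ ∧ ∀ᶠ x : ℕ in atTop, ∀ L : ℕ, lam * Real.log x ≤ L → 8 * L ≤ x →
      (∀ u : ℕ, x ≤ u → u ≤ 2 * x → (5 / 27 - ε) * (L / 2) ≤ (((Ico u (u + L)).filter (fun v : ℕ =>
        Even v ∧ κ * (v / (Real.log v) ^ 2) ≤ (reps v : ℝ))).card : ℝ)) ∨
      (1 - ε) * (L / 40) ≤ (((Icc 1 (L / 20)).filter (fun h : ℕ =>
        Even h ∧ κ * (x / (Real.log x) ^ 2) ≤ (prs (3 * x) h : ℝ))).card : ℝ) :=
  mainG (Pool.Agent.N591.RQ.main Pool.Agent.N595.RQ.main) (sHITM2 1) Pool.Agent.N123.RGPOL.main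
    ε lam hε hlam

/-- the same for windows of differences -/
theorem differences_final (ε lam : ℝ) (hε : 0 < ε) (hlam : 0 < lam) :
    ∃ κ : ℝ, 0 < κ ∧ ∀ᶠ x : ℕ in atTop, ∀ L : ℕ, lam * Real.log x ≤ L → 8 * L ≤ x →
      (∀ u : ℕ, u ≤ x → (5 / 27 - ε) * (L / 2) ≤ (((Ico u (u + L)).filter (fun v : ℕ =>
        Even v ∧ κ * (x / (Real.log x) ^ 2) ≤ (prs (3 * x) v : ℝ))).card : ℝ)) ∨
      (1 - ε) * (L / 40) ≤ (((Icc 1 (L / 20)).filter (fun h : ℕ =>
        Even h ∧ κ * (x / (Real.log x) ^ 2) ≤ (prs (3 * x) h : ℝ))).card : ℝ) :=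
  mainP (Pool.Agent.N591.RQ.main Pool.Agent.N595.RQ.main) (sHITM2 1) Pool.Agent.N123.RGPOL.main
    ε lam hε hlam

end Pool.Agent.N646.RG
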