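import Pool.Agent.N646.RG.Stm

/-! Project RG: the combinatorial lemma for four sets. -/

set_option autoImplicit false

namespace Pool.Agent.N646.RG

open Finset

open Classical in
/-- the popular sums of two sets -/
theorem popsum (hPOL : S_POL) (A B : Finset ℕ) (T s : ℕ) (hA : A ⊆ range T) (hB : B ⊆ range T)
    (hs : 1 ≤ s) (hsA : s ≤ A.card) (hsB : s ≤ B.card) (E : ℕ → Prop) (β : ℝ)
    (hbad : (((A ×ˢ B).filter (fun x => ¬ E (x.1 + x.2))).card : ℝ) ≤ β) :
    (A.card : ℝ) + B.card - s - β / s ≤ (((range (2 * T)).filter E).card : ℝ) := by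
  have h1 := hPOL A B s hsA hsB
  set I : Finset ℕ := (A ×ˢ B).image (fun x => x.1 + x.2) with hI
  set r : ℕ → ℕ := fun t => ((A ×ˢ B).filter (fun x => x.1 + x.2 = t)).card with hr
  have hsR : (0 : ℝ) < s := by exact_mod_cast hs
  have h2 : ∑ t ∈ I, min s (r t) ≤ s * ((range (2 * T)).filter E).card +
      ((A ×ˢ B).filter (fun x => ¬ E (x.1 + x.2))).card := by
    rw [← sum_filter_add_sum_filter_not I E]
    apply add_le_add
    · calc ∑ t ∈ I.filter E, min s (r t) ≤ ∑ _t ∈ I.filter E, s :=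
            sum_le_sum fun t _ => min_le_left _ _
        _ = (I.filter E).card * s := by rw [sum_const, smul_eq_mul]
        _ ≤ ((range (2 * T)).filter E).card * s := by
            apply Nat.mul_le_mul_right
            apply card_le_card
            intro t ht
            obtain ⟨h3, h4⟩ := mem_filter.1 ht
            rw [mem_filter]
            refine ⟨?_, h4⟩
            obtain ⟨x, hx, rfl⟩ := mem_image.1 h3
            obtain ⟨hx1, hx2⟩ := mem_product.1 hx
            have := mem_range.1 (hA hx1)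
            have := mem_range.1 (hB hx2)
            rw [mem_range]
            omega
        _ = _ := by ring
    · calc ∑ t ∈ I.filter (fun t => ¬ E t), min s (r t) ≤ ∑ t ∈ I.filter (fun t => ¬ E t), r t :=
            sum_le_sum fun t _ => min_le_right _ _
        _ = ∑ t ∈ I.filter (fun t => ¬ E t),
            (((A ×ˢ B).filter (fun x => ¬ E (x.1 + x.2))).filter (fun x => x.1 + x.2 = t)).card := by
            refine sum_congr rfl fun t ht => ?_
            simp only [hr]
            congr 1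
            ext x
            simp only [mem_filter]
            constructor
            · rintro ⟨h3, h4⟩
              exact ⟨⟨h3, by rw [h4]; exact (mem_filter.1 ht).2⟩, h4⟩
            · rintro ⟨⟨h3, _⟩, h4⟩
              exact ⟨h3, h4⟩
        _ = _ := by
            symm
            apply card_eq_sum_card_fiberwise
            intro x hx
            rw [mem_coe, mem_filter] at hx
            rw [mem_coe, mem_filter]
            exact ⟨mem_image.2 ⟨x, hx.1, rfl⟩, hx.2⟩
  have h3 : (s : ℝ) * ((A.card : ℝ) + B.card - s) ≤ s * (((range (2 * T)).filter E).card : ℝ) + β := by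
    have h4 : ((s * (A.card + B.card - s) : ℕ) : ℝ) ≤ ((s * ((range (2 * T)).filter E).card +
      ((A ×ˢ B).filter (fun x => ¬ E (x.1 + x.2))).card : ℕ) : ℝ) := by
      exact_mod_cast h1.trans h2
    have h5 : ((A.card + B.card - s : ℕ) : ℝ) = (A.card : ℝ) + B.card - s := by
      rw [Nat.cast_sub (by omega)]
      push_cast
      ring
    rw [Nat.cast_mul, h5] at h4
    push_cast at h4
    linarith
  have h6 : s * ((A.card : ℝ) + B.card - s - β / s) ≤ s * (((range (2 * T)).filter E).card : ℝ) := by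
    have : s * ((A.card : ℝ) + B.card - s - β / s) = s * ((A.card : ℝ) + B.card - s) - β := by
      field_simp
    rw [this]
    linarith
  exact le_of_mul_le_mul_left h6 hsR

open Classical in
/-- the differences of two large sets -/
theorem dh (A B : Finset ℕ) (T : ℕ) (hA : A ⊆ range T) (hB : B ⊆ range T) (D : ℕ → Prop)
    (β θ : ℝ) (hc : (11 / 10 + θ) * T ≤ (A.card : ℝ) + B.card)
    (hbad : (((A ×ˢ B).filter (fun x => x.1 ≤ x.2 ∧ ¬ D (x.2 - x.1))).card : ℝ) ≤ β) :
    (((range T).filter (fun t => 10 * t ≤ T ∧ ¬ D t)).card : ℝ) * (θ * T) ≤ β := by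
  refine le_trans ?_ hbad
  set W : Finset ℕ := (range T).filter (fun t => 10 * t ≤ T ∧ ¬ D t) with hW
  have hr : ∀ t ∈ W, θ * T ≤ ((A.filter (fun y => y + t ∈ B)).card : ℝ) := by
    intro t ht
    obtain ⟨-, ht1, -⟩ := mem_filter.1 ht
    have h1 : A.card + B.card ≤ (A.filter (fun y => y + t ∈ B)).card + (T + t) := by
      have h2 : (A.image (fun y => y + t)).card = A.card :=
        card_image_of_injective _ (add_left_injective t)
      have h3 : (A.image (fun y => y + t) ∪ B).card ≤ T + t := by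
        have : A.image (fun y => y + t) ∪ B ⊆ range (T + t) := by
          intro z hz
          rw [mem_range]
          rcases mem_union.1 hz with hz | hz
          · obtain ⟨y, hy, rfl⟩ := mem_image.1 hz
            have := mem_range.1 (hA hy)
            omega
          · have := mem_range.1 (hB hz)
            omega
        have := card_le_card this
        rwa [card_range] at this
      have h4 : (A.image (fun y => y + t) ∩ B).card ≤ (A.filter (fun y => y + t ∈ B)).card := by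
        rw [← card_image_of_injective (A.filter (fun y => y + t ∈ B)) (add_left_injective t)]
        apply card_le_card
        intro z hz
        obtain ⟨hz1, hz2⟩ := mem_inter.1 hz
        obtain ⟨y, hy, rfl⟩ := mem_image.1 hz1
        exact mem_image.2 ⟨y, mem_filter.2 ⟨hy, hz2⟩, rfl⟩
      have h5 := card_union_add_card_inter (A.image (fun y => y + t)) B
      omega
    have h2 : (A.card : ℝ) + B.card ≤ ((A.filter (fun y => y + t ∈ B)).card : ℝ) + (T + t) := by
      exact_mod_cast h1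
    have h3 : 10 * (t : ℝ) ≤ T := by exact_mod_cast ht1
    linarith
  calc (W.card : ℝ) * (θ * T) = ∑ _t ∈ W, θ * T := by rw [sum_const, nsmul_eq_mul]
    _ ≤ ∑ t ∈ W, ((A.filter (fun y => y + t ∈ B)).card : ℝ) := sum_le_sum hr
    _ = ((∑ t ∈ W, (A.filter (fun y => y + t ∈ B)).card : ℕ) : ℝ) := by push_cast; rfl
    _ ≤ _ := by
        rw [Nat.cast_le, ← card_sigma]
        apply card_le_card_of_injOn (fun q : (Σ _ : ℕ, ℕ) => (q.2, q.2 + q.1))
        · rintro ⟨t, y⟩ hq
          rw [mem_coe, mem_sigma] at hq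
          obtain ⟨hq1, hq2⟩ := hq
          simp only [mem_filter] at hq2
          obtain ⟨-, -, hq4⟩ := mem_filter.1 hq1
          rw [mem_coe, mem_filter, mem_product]
          refine ⟨⟨hq2.1, hq2.2⟩, by show y ≤ y + t; omega, ?_⟩
          show ¬ D (y + t - y)
          rw [Nat.add_sub_cancel_left]
          exact hq4
        · rintro ⟨t, y⟩ _ ⟨t', y'⟩ _ h
          simp only [Prod.mk.injEq] at h
          obtain ⟨h1, h2⟩ := h
          subst h1
          have : t = t' := by omega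
          subst this
          rfl

open Classical in
/-- **the combinatorial lemma for four sets** -/
theorem comb (hPOL : S_POL) (ε : ℝ) (hε : 0 < ε) : ∃ ε₁ : ℝ, 0 < ε₁ ∧ ∃ T₀ : ℕ, 1 ≤ T₀ ∧ ∀ T : ℕ, T₀ ≤ T →
    ∀ A₀ A₁ B₀ B₁ : Finset ℕ, A₀ ⊆ range T → A₁ ⊆ range T → B₀ ⊆ range T → B₁ ⊆ range T →
    (10 / 9 - ε₁) * T ≤ (A₀.card : ℝ) + A₁.card + B₀.card + B₁.card →
    ∀ E Ep Em D : ℕ → Prop,
    (((A₀ ×ˢ B₀).filter (fun x => ¬ E (x.1 + x.2))).card : ℝ) ≤ ε₁ * (T : ℝ) ^ 2 →
    (((A₁ ×ˢ B₁).filter (fun x => ¬ E (x.1 + x.2))).card : ℝ) ≤ ε₁ * (T : ℝ) ^ 2 →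
    (((A₁ ×ˢ B₀).filter (fun x => ¬ Ep (x.1 + x.2))).card : ℝ) ≤ ε₁ * (T : ℝ) ^ 2 →
    (((A₀ ×ˢ B₁).filter (fun x => ¬ Em (x.1 + x.2))).card : ℝ) ≤ ε₁ * (T : ℝ) ^ 2 →
    (((A₀ ×ˢ A₁).filter (fun x => x.1 ≤ x.2 ∧ ¬ D (x.2 - x.1))).card : ℝ) ≤ ε₁ * (T : ℝ) ^ 2 →
    (((B₁ ×ˢ B₀).filter (fun x => x.1 ≤ x.2 ∧ ¬ D (x.2 - x.1))).card : ℝ) ≤ ε₁ * (T : ℝ) ^ 2 →
    (((range T).filter (fun t => 10 * t ≤ T ∧ ¬ D t)).card : ℝ) ≤ ε * T ∨
    (10 / 9 - ε) * T ≤ (((range (2 * T)).filter E).card : ℝ) + (((range (2 * T)).filter Ep).card : ℝ) +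
      (((range (2 * T)).filter Em).card : ℝ) := by
  set η : ℝ := min (ε / 20) (1 / 1000) with hη
  have hη0 : 0 < η := lt_min (by positivity) (by norm_num)
  have hη1 : η ≤ ε / 20 := min_le_left _ _
  have hη2 : η ≤ 1 / 1000 := min_le_right _ _
  refine ⟨η ^ 2 / 100, by positivity, ⌈1 / η⌉₊, ?_, ?_⟩
  · rw [Nat.one_le_ceil_iff]
    positivity
  intro T hT A₀ A₁ B₀ B₁ hA₀ hA₁ hB₀ hB₁ htot E Ep Em D h00 h11 h10 h01 hDA hDB
  have hT1 : 1 / η ≤ T := (Nat.le_ceil _).trans (by exact_mod_cast hT)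
  have hT2 : 1 ≤ η * T := by
    rw [div_le_iff₀ hη0] at hT1
    linarith
  have hTp : (0 : ℝ) < T := by
    by_contra h
    push Not at h
    nlinarith
  set s : ℕ := ⌈η * T⌉₊ with hs
  have hs1 : 1 ≤ s := by
    rw [hs, Nat.one_le_ceil_iff]
    positivity
  have hs2 : η * T ≤ s := Nat.le_ceil _
  have hs3 : (s : ℝ) ≤ 2 * (η * T) := by
    have := Nat.ceil_lt_add_one (a := η * T) (by positivity)
    rw [← hs] at this
    linarith
  have hsp : (0 : ℝ) < s := by exact_mod_cast hs1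
  set β : ℝ := η ^ 2 / 100 * (T : ℝ) ^ 2 with hβ
  have hβs : β / s ≤ η * T := by
    rw [div_le_iff₀ hsp, hβ]
    have h1 : (η * T) * (η * T) ≤ (η * T) * s := mul_le_mul_of_nonneg_left hs2 (by positivity)
    nlinarith
  have hpop : ∀ A B : Finset ℕ, A ⊆ range T → B ⊆ range T → ∀ E' : ℕ → Prop,
      (((A ×ˢ B).filter (fun x => ¬ E' (x.1 + x.2))).card : ℝ) ≤ β → s ≤ A.card → s ≤ B.card →
      (A.card : ℝ) + B.card - 3 * (η * T) ≤ (((range (2 * T)).filter E').card : ℝ) := by
    intro A B hA hB E' hb hsA hsB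
    have := popsum hPOL A B T s hA hB hs1 hsA hsB E' β hb
    linarith
  have hsm : ∀ A : Finset ℕ, ¬ s ≤ A.card → (A.card : ℝ) ≤ 2 * (η * T) := by
    intro A hA
    have h1 : (A.card : ℝ) ≤ s := by exact_mod_cast (not_le.1 hA).le
    linarith
  have hDfin : ∀ A B : Finset ℕ, A ⊆ range T → B ⊆ range T →
      (((A ×ˢ B).filter (fun x => x.1 ≤ x.2 ∧ ¬ D (x.2 - x.1))).card : ℝ) ≤ β →
      (10 / 9 - η ^ 2 / 100) * T ≤ (A.card : ℝ) + B.card + 4 * (η * T) →
      (((range T).filter (fun t => 10 * t ≤ T ∧ ¬ D t)).card : ℝ) ≤ ε * T := by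
    intro A B hA hB hb hAB
    have hη3 : η ^ 2 / 100 ≤ 1 / 1000 := by nlinarith
    have h1 : (11 / 10 + 1 / 200) * T ≤ (A.card : ℝ) + B.card := by
      have h2 : η * T ≤ 1 / 1000 * T := mul_le_mul_of_nonneg_right hη2 hTp.le
      have h3 : η ^ 2 / 100 * T ≤ 1 / 1000 * T := mul_le_mul_of_nonneg_right hη3 hTp.le
      linarith
    have h2 := dh A B T hA hB D β (1 / 200) h1 hb
    have h3 : (((range T).filter (fun t => 10 * t ≤ T ∧ ¬ D t)).card : ℝ) * (1 / 200 * T) ≤
        (ε * T) * (1 / 200 * T) := by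
      refine h2.trans ?_
      rw [hβ]
      have h4 : η ^ 2 / 100 ≤ ε / 200 := by nlinarith
      have h5 : 0 ≤ (T : ℝ) ^ 2 := by positivity
      nlinarith
    exact le_of_mul_le_mul_right h3 (by positivity)
  have k00 := hpop A₀ B₀ hA₀ hB₀ E h00
  have k11 := hpop A₁ B₁ hA₁ hB₁ E h11
  have k10 := hpop A₁ B₀ hA₁ hB₀ Ep h10
  have k01 := hpop A₀ B₁ hA₀ hB₁ Em h01
  have hη20 : 20 * (η * T) ≤ ε * T := by nlinarith
  have hη21 : η ^ 2 / 100 * T ≤ η * T := by nlinarith
  have hE0 : (0 : ℝ) ≤ (((range (2 * T)).filter E).card : ℝ) := Nat.cast_nonneg _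
  have hEp0 : (0 : ℝ) ≤ (((range (2 * T)).filter Ep).card : ℝ) := Nat.cast_nonneg _
  have hEm0 : (0 : ℝ) ≤ (((range (2 * T)).filter Em).card : ℝ) := Nat.cast_nonneg _
  have a0 : (0 : ℝ) ≤ A₀.card := Nat.cast_nonneg _
  have a1 : (0 : ℝ) ≤ A₁.card := Nat.cast_nonneg _
  have b0 : (0 : ℝ) ≤ B₀.card := Nat.cast_nonneg _
  have b1 : (0 : ℝ) ≤ B₁.card := Nat.cast_nonneg _
  by_cases cA0 : s ≤ A₀.card <;> by_cases cA1 : s ≤ A₁.card <;>
    by_cases cB0 : s ≤ B₀.card <;> by_cases cB1 : s ≤ B₁.card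
  · right
    have := k01 cA0 cB1
    have := k10 cA1 cB0
    linarith
  · right
    have := k00 cA0 cB0
    have := k10 cA1 cB0
    have := hsm B₁ cB1
    linarith
  · right
    have := k01 cA0 cB1
    have := k11 cA1 cB1
    have := hsm B₀ cB0
    linarith
  · left
    refine hDfin A₀ A₁ hA₀ hA₁ hDA ?_
    have := hsm B₀ cB0
    have := hsm B₁ cB1
    linarith
  · right
    have := k00 cA0 cB0
    have := k01 cA0 cB1
    have := hsm A₁ cA1
    linarith
  · right
    have := k00 cA0 cB0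
    have := hsm A₁ cA1
    have := hsm B₁ cB1
    linarith
  · right
    have := k01 cA0 cB1
    have := hsm A₁ cA1
    have := hsm B₀ cB0
    linarith
  · left
    refine hDfin A₀ A₁ hA₀ hA₁ hDA ?_
    have := hsm B₀ cB0
    have := hsm B₁ cB1
    linarith
  · right
    have := k10 cA1 cB0
    have := k11 cA1 cB1
    have := hsm A₀ cA0
    linarith
  · right
    have := k10 cA1 cB0
    have := hsm A₀ cA0
    have := hsm B₁ cB1
    linarith
  · right
    have := k11 cA1 cB1
    have := hsm A₀ cA0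
    have := hsm B₀ cB0
    linarith
  · left
    refine hDfin A₀ A₁ hA₀ hA₁ hDA ?_
    have := hsm B₀ cB0
    have := hsm B₁ cB1
    linarith
  · left
    refine hDfin B₁ B₀ hB₁ hB₀ hDB ?_
    have := hsm A₀ cA0
    have := hsm A₁ cA1
    linarith
  · left
    refine hDfin B₁ B₀ hB₁ hB₀ hDB ?_
    have := hsm A₀ cA0
    have := hsm A₁ cA1
    linarith
  · left
    refine hDfin B₁ B₀ hB₁ hB₀ hDB ?_
    have := hsm A₀ cA0
    have := hsm A₁ cA1
    linarith
  · exfalso
    have := hsm A₀ cA0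
    have := hsm A₁ cA1
    have := hsm B₀ cB0
    have := hsm B₁ cB1
    have h2 : η * T ≤ 1 / 1000 * T := mul_le_mul_of_nonneg_right hη2 hTp.le
    linarith

end Pool.Agent.N646.RG
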