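import Mathlib

/-! Project RG: counting the good even integers, class by class. -/

set_option autoImplicit false

namespace Pool.Agent.N646.RG

open Finset

open Classical in
theorem dcount (M T L : ℕ) (hM : 0 < M) (hM2 : 2 ∣ M) (hT : 0 < T) (hL : L ≤ 2 * (M * T) + 6 * M)
    (Good : ℕ → Prop) (δ : ℝ) (h : ∀ r < M, 2 ∣ r →
      (((range T).filter (fun t => 10 * t ≤ T ∧ ¬ Good (r + M * t))).card : ℝ) ≤ δ) :
    (L : ℝ) / 40 - M * δ - M - 3 ≤ (((Icc 1 (L / 20)).filter (fun v => Even v ∧ Good v)).card : ℝ) := by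
  have hδ : 0 ≤ δ := le_trans (Nat.cast_nonneg _) (h 0 hM (dvd_zero _))
  set n : ℕ := L / 20 with hn
  -- all the even integers
  have h1 : n / 2 ≤ ((Icc 1 n).filter (fun v => Even v)).card := by
    have h2 : (range (n / 2)).image (fun i => 2 * (i + 1)) ⊆ (Icc 1 n).filter (fun v => Even v) := by
      intro v hv
      obtain ⟨i, hi, rfl⟩ := mem_image.1 hv
      have := mem_range.1 hi
      rw [mem_filter, mem_Icc]
      refine ⟨⟨?_, ?_⟩, even_two_mul _⟩ <;> · show _; omega
    have h3 := card_le_card h2
    rwa [card_image_of_injective _ (fun a b hab => by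
      have : 2 * (a + 1) = 2 * (b + 1) := hab
      omega), card_range] at h3
  -- the bad ones
  set R : Finset ℕ := (range M).filter (fun r => 2 ∣ r) with hR
  set Bd : ℕ → Finset ℕ := fun r => (range T).filter (fun t => 10 * t ≤ T ∧ ¬ Good (r + M * t)) with hBd
  have h4 : (Icc 1 n).filter (fun v => Even v ∧ ¬ Good v) ⊆
      (R.biUnion (fun r => (Bd r).image (fun t => r + M * t))) ∪ Icc (n - M) n := by
    intro v hv
    obtain ⟨hv1, hv2, hv3⟩ := mem_filter.1 hv
    have hvn := (mem_Icc.1 hv1).2
    have hdm := Nat.div_add_mod v M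
    have hml := Nat.mod_lt v hM
    rw [mem_union]
    by_cases h10 : 10 * (v / M) ≤ T
    · left
      rw [mem_biUnion]
      refine ⟨v % M, ?_, ?_⟩
      · rw [hR, mem_filter, mem_range]
        refine ⟨hml, ?_⟩
        have h5 : 2 ∣ v := even_iff_two_dvd.1 hv2
        exact (Nat.dvd_mod_iff hM2).2 h5
      · rw [mem_image]
        refine ⟨v / M, ?_, by rw [Nat.mod_add_div]⟩
        rw [hBd, mem_filter, mem_range]
        refine ⟨by omega, h10, ?_⟩
        rw [Nat.mod_add_div]
        exact hv3
    · right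
      rw [mem_Icc]
      refine ⟨?_, hvn⟩
      have h5 : M * (T + 1) ≤ M * (10 * (v / M)) := Nat.mul_le_mul_left _ (by omega)
      have h6 : M * (10 * (v / M)) = 10 * (M * (v / M)) := by ring
      have h7 : M * (T + 1) = M * T + M := by ring
      omega
  have h5 : (((Icc 1 n).filter (fun v => Even v ∧ ¬ Good v)).card : ℝ) ≤ M * δ + (M + 1) := by
    have h6 : ((R.biUnion (fun r => (Bd r).image (fun t => r + M * t))).card : ℝ) ≤ M * δ := by
      have h7 : ((R.biUnion (fun r => (Bd r).image (fun t => r + M * t))).card : ℝ) ≤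
          ∑ r ∈ R, ((Bd r).card : ℝ) := by
        have : (R.biUnion (fun r => (Bd r).image (fun t => r + M * t))).card ≤
            ∑ r ∈ R, (Bd r).card :=
          card_biUnion_le.trans (sum_le_sum fun r _ => card_image_le)
        exact_mod_cast this
      have h8 : ∑ r ∈ R, ((Bd r).card : ℝ) ≤ ∑ _r ∈ R, δ := by
        refine sum_le_sum fun r hr => ?_
        rw [hR, mem_filter, mem_range] at hr
        exact h r hr.1 hr.2
      rw [sum_const, nsmul_eq_mul] at h8
      have h9 : (R.card : ℝ) ≤ M := by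
        have : R.card ≤ M := by
          refine (card_filter_le _ _).trans ?_
          rw [card_range]
        exact_mod_cast this
      have h10 := mul_le_mul_of_nonneg_right h9 hδ
      linarith
    have h7 : ((Icc (n - M) n).card : ℝ) ≤ M + 1 := by
      have : (Icc (n - M) n).card ≤ M + 1 := by
        rw [Nat.card_Icc]
        omega
      exact_mod_cast this
    have h8 : (((Icc 1 n).filter (fun v => Even v ∧ ¬ Good v)).card : ℝ) ≤
        ((R.biUnion (fun r => (Bd r).image (fun t => r + M * t))).card : ℝ) +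
          ((Icc (n - M) n).card : ℝ) := by
      exact_mod_cast (card_le_card h4).trans (card_union_le _ _)
    linarith
  have h6 : ((Icc 1 n).filter (fun v => Even v)).card = ((Icc 1 n).filter (fun v => Even v ∧ Good v)).card +
      ((Icc 1 n).filter (fun v => Even v ∧ ¬ Good v)).card := by
    rw [← filter_filter, ← filter_filter, card_filter_add_card_filter_not]
  have h7 : ((n / 2 : ℕ) : ℝ) ≤ (((Icc 1 n).filter (fun v => Even v ∧ Good v)).card : ℝ) +
      (((Icc 1 n).filter (fun v => Even v ∧ ¬ Good v)).card : ℝ) := by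
    have := h1.trans_eq h6
    exact_mod_cast this
  have h8 : (L : ℝ) / 40 - 2 ≤ ((n / 2 : ℕ) : ℝ) := by
    have h9 : L ≤ 40 * (n / 2) + 80 := by omega
    have h10 : (L : ℝ) ≤ 40 * ((n / 2 : ℕ) : ℝ) + 80 := by exact_mod_cast h9
    linarith
  linarith

end Pool.Agent.N646.RG
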