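import Mathlib

/-! Project RG: counting in a window, class by class. -/

set_option autoImplicit false

namespace Pool.Agent.N646.RG

open Finset

theorem win_inj (u L M T a : ℕ) (hM : 0 < M) (C : Finset ℕ) (hC : C ⊆ Ico u (u + M))
    (ha : a ≤ 2 * M) (hL : 2 * (M * T) + 4 * M ≤ L) (P Q : ℕ → Prop)
    [DecidablePred P] [DecidablePred Q] (hPQ : ∀ m ∈ C, ∀ s, P (m + a + M * s) → Q (m + a + M * s)) :
    ∑ m ∈ C, ((range (2 * T)).filter (fun s => P (m + a + M * s))).card ≤
      ((Ico u (u + L)).filter Q).card := by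
  rw [← card_sigma]
  apply card_le_card_of_injOn (fun q : (Σ _ : ℕ, ℕ) => q.1 + a + M * q.2)
  · rintro ⟨m, s⟩ hq
    rw [mem_coe, mem_sigma] at hq
    obtain ⟨hm, hs⟩ := hq
    simp only [mem_filter] at hs
    obtain ⟨hs1, hs2⟩ := hs
    have h1 : u ≤ m ∧ m < u + M := mem_Ico.1 (hC hm)
    have h2 := mem_range.1 hs1
    have h3 : M * s ≤ M * (2 * T) := Nat.mul_le_mul_left _ h2.le
    have h4 : M * (2 * T) = 2 * (M * T) := by ring
    rw [mem_coe, mem_filter, mem_Ico]
    refine ⟨⟨?_, ?_⟩, hPQ m hm s hs2⟩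
    · show u ≤ m + a + M * s
      omega
    · show m + a + M * s < u + L
      omega
  · rintro ⟨m, s⟩ hq ⟨m', s'⟩ hq' h
    rw [mem_coe, mem_sigma] at hq hq'
    have h1 := mem_Ico.1 (hC hq.1)
    have h1' := mem_Ico.1 (hC hq'.1)
    simp only at h h1 h1'
    have h2 : (m - u) + M * s = (m' - u) + M * s' := by omega
    have h3 : m - u < M := by omega
    have h3' : m' - u < M := by omega
    have h4 : s = s' := by
      have e1 : ((m - u) + M * s) / M = s := by
        rw [Nat.add_mul_div_left _ _ hM, Nat.div_eq_of_lt h3, zero_add]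
      have e2 : ((m' - u) + M * s') / M = s' := by
        rw [Nat.add_mul_div_left _ _ hM, Nat.div_eq_of_lt h3', zero_add]
      rw [← e1, ← e2, h2]
    subst h4
    have h5 : m = m' := by omega
    subst h5
    rfl

open Classical in
/-- **the count in a window** -/
theorem window (u L M T r : ℕ) (hM : 0 < M) (h6 : 6 ∣ M) (hr : r < M) (hr2 : 2 ∣ r)
    (hL : 2 * (M * T) + 4 * M ≤ L) (Good : ℕ → Prop) (c : ℝ)
    (h : ∀ m ∈ Ico u (u + M), 2 ∣ m → (3 ∣ m ∨ 3 ∣ r) →
      c ≤ (((range (2 * T)).filter (fun s => Good (m + M + M * s))).card : ℝ) +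
        (((range (2 * T)).filter (fun s => Good (m + (M + r) + M * s))).card : ℝ) +
        (((range (2 * T)).filter (fun s => Good (m + (M - r) + M * s))).card : ℝ)) :
    (M : ℝ) / 6 * c ≤ (((Ico u (u + L)).filter (fun v => Even v ∧ Good v)).card : ℝ) := by
  obtain ⟨q, rfl⟩ := h6
  have hq : 0 < q := by omega
  have hMc : ((6 * q : ℕ) : ℝ) / 6 = q := by push_cast; ring
  rw [hMc]
  by_cases h3 : 3 ∣ r
  · -- all even centers
    set C : Finset ℕ := (Ico u (u + 6 * q)).filter (fun m => 2 ∣ m) with hC
    have hCs : C ⊆ Ico u (u + 6 * q) := filter_subset _ _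
    have hCc : 3 * q ≤ C.card := by
      have h1 : (range (3 * q)).image (fun i => 2 * ((u + 1) / 2 + i)) ⊆ C := by
        intro m hm
        obtain ⟨i, hi, rfl⟩ := mem_image.1 hm
        have := mem_range.1 hi
        rw [hC, mem_filter, mem_Ico]
        refine ⟨⟨?_, ?_⟩, Dvd.intro _ rfl⟩ <;> · show _; omega
      have h2 := card_le_card h1
      rwa [card_image_of_injective _ (fun a b hab => by
        have : 2 * ((u + 1) / 2 + a) = 2 * ((u + 1) / 2 + b) := hab
        omega), card_range] at h2
    have hev : ∀ a : ℕ, 2 ∣ a → a ≤ 2 * (6 * q) →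
        ((∑ m ∈ C, ((range (2 * T)).filter (fun s => Good (m + a + 6 * q * s))).card : ℕ) : ℝ) ≤
        (((Ico u (u + L)).filter (fun v => Even v ∧ Good v)).card : ℝ) := by
      intro a ha1 ha2
      rw [Nat.cast_le]
      refine win_inj u L (6 * q) T a hM C hCs ha2 hL Good (fun v => Even v ∧ Good v) ?_
      intro m hm s hs
      refine ⟨?_, hs⟩
      have h1 : 2 ∣ m := (mem_filter.1 hm).2
      rw [even_iff_two_dvd]
      have h2 : 2 ∣ 6 * q * s := Dvd.dvd.mul_right (Dvd.dvd.mul_right (by norm_num) q) s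
      exact (h1.add ha1).add h2
    have e1 := hev (6 * q) (by omega) (by omega)
    have e2 := hev (6 * q + r) (by omega) (by omega)
    have e3 := hev (6 * q - r) (by omega) (by omega)
    have hs : (C.card : ℝ) * c ≤ ∑ m ∈ C, ((((range (2 * T)).filter (fun s => Good (m + 6 * q + 6 * q * s))).card : ℝ) +
        (((range (2 * T)).filter (fun s => Good (m + (6 * q + r) + 6 * q * s))).card : ℝ) +
        (((range (2 * T)).filter (fun s => Good (m + (6 * q - r) + 6 * q * s))).card : ℝ)) := by
      rw [← nsmul_eq_mul, ← sum_const]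
      exact sum_le_sum fun m hm => h m (hCs hm) (mem_filter.1 hm).2 (Or.inr h3)
    rw [sum_add_distrib, sum_add_distrib] at hs
    push_cast at e1 e2 e3
    rcases le_or_gt c 0 with hc | hc
    · have : (q : ℝ) * c ≤ 0 := mul_nonpos_of_nonneg_of_nonpos (Nat.cast_nonneg _) hc
      exact this.trans (Nat.cast_nonneg _)
    have h4 : 3 * (q : ℝ) * c ≤ (C.card : ℝ) * c := by
      apply mul_le_mul_of_nonneg_right _ hc.le
      exact_mod_cast hCc
    linarith
  · -- centers divisible by 6
    set C : Finset ℕ := (Ico u (u + 6 * q)).filter (fun m => 6 ∣ m) with hC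
    have hCs : C ⊆ Ico u (u + 6 * q) := filter_subset _ _
    have hCc : q ≤ C.card := by
      have h1 : (range q).image (fun i => 6 * ((u + 5) / 6 + i)) ⊆ C := by
        intro m hm
        obtain ⟨i, hi, rfl⟩ := mem_image.1 hm
        have := mem_range.1 hi
        rw [hC, mem_filter, mem_Ico]
        refine ⟨⟨?_, ?_⟩, Dvd.intro _ rfl⟩ <;> · show _; omega
      have h2 := card_le_card h1
      rwa [card_image_of_injective _ (fun a b hab => by
        have : 6 * ((u + 5) / 6 + a) = 6 * ((u + 5) / 6 + b) := hab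
        omega), card_range] at h2
    have hev : ∀ a ρ : ℕ, 2 ∣ a → a ≤ 2 * (6 * q) → a % 3 = ρ →
        ((∑ m ∈ C, ((range (2 * T)).filter (fun s => Good (m + a + 6 * q * s))).card : ℕ) : ℝ) ≤
        ((((Ico u (u + L)).filter (fun v => Even v ∧ Good v)).filter (fun v => v % 3 = ρ)).card : ℝ) := by
      intro a ρ ha1 ha2 ha3
      rw [Nat.cast_le, filter_filter]
      refine win_inj u L (6 * q) T a hM C hCs ha2 hL Good
        (fun v => (Even v ∧ Good v) ∧ v % 3 = ρ) ?_
      intro m hm s hs
      have h1 : 6 ∣ m := (mem_filter.1 hm).2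
      refine ⟨⟨?_, hs⟩, ?_⟩
      · rw [even_iff_two_dvd]
        have h2 : 2 ∣ 6 * q * s := Dvd.dvd.mul_right (Dvd.dvd.mul_right (by norm_num) q) s
        exact ((Dvd.dvd.trans (by norm_num) h1).add ha1).add h2
      · have h2 : 3 ∣ 6 * q * s := Dvd.dvd.mul_right (Dvd.dvd.mul_right (by norm_num) q) s
        omega
    have e1 := hev (6 * q) 0 (by omega) (by omega) (by omega)
    have e2 := hev (6 * q + r) ((6 * q + r) % 3) (by omega) (by omega) rfl
    have e3 := hev (6 * q - r) ((6 * q - r) % 3) (by omega) (by omega) rfl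
    have hs : (C.card : ℝ) * c ≤ ∑ m ∈ C, ((((range (2 * T)).filter (fun s => Good (m + 6 * q + 6 * q * s))).card : ℝ) +
        (((range (2 * T)).filter (fun s => Good (m + (6 * q + r) + 6 * q * s))).card : ℝ) +
        (((range (2 * T)).filter (fun s => Good (m + (6 * q - r) + 6 * q * s))).card : ℝ)) := by
      rw [← nsmul_eq_mul, ← sum_const]
      refine sum_le_sum fun m hm => ?_
      have h6m : 6 ∣ m := (mem_filter.1 hm).2
      exact h m (hCs hm) (by omega) (Or.inl (by omega))
    rw [sum_add_distrib, sum_add_distrib] at hs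
    push_cast at e1 e2 e3
    rcases le_or_gt c 0 with hc | hc
    · have : (q : ℝ) * c ≤ 0 := mul_nonpos_of_nonneg_of_nonpos (Nat.cast_nonneg _) hc
      exact this.trans (Nat.cast_nonneg _)
    have h4 : (q : ℝ) * c ≤ (C.card : ℝ) * c := by
      apply mul_le_mul_of_nonneg_right _ hc.le
      exact_mod_cast hCc
    set W : Finset ℕ := (Ico u (u + L)).filter (fun v => Even v ∧ Good v) with hW
    have e4 : (6 * q + r) % 3 = r % 3 := by omega
    have e5 : (6 * q - r) % 3 = (3 - r % 3) % 3 := by omega
    have e6 : r % 3 = 1 ∨ r % 3 = 2 := by omega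
    have h5 : (W.filter (fun v => v % 3 = 0)).card + (W.filter (fun v => v % 3 = (6 * q + r) % 3)).card +
        (W.filter (fun v => v % 3 = (6 * q - r) % 3)).card ≤ W.card := by
      rw [← card_union_of_disjoint, ← card_union_of_disjoint]
      · exact card_le_card (union_subset (union_subset (filter_subset _ _) (filter_subset _ _))
          (filter_subset _ _))
      · rw [disjoint_left]
        intro v hv hv'
        have k1 := (mem_filter.1 hv').2
        rcases mem_union.1 hv with hv | hv
        · have k2 := (mem_filter.1 hv).2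
          omega
        · have k2 := (mem_filter.1 hv).2
          omega
      · rw [disjoint_left]
        intro v hv hv'
        rw [mem_filter] at hv hv'
        omega
    have h6 : ((W.filter (fun v => v % 3 = 0)).card : ℝ) + ((W.filter (fun v => v % 3 = (6 * q + r) % 3)).card : ℝ) +
        ((W.filter (fun v => v % 3 = (6 * q - r) % 3)).card : ℝ) ≤ (W.card : ℝ) := by
      exact_mod_cast h5
    linarith

end Pool.Agent.N646.RG
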