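import Pool.Agent.N646.RG.NT
import Pool.Agent.N646.RG.Win
import Pool.Agent.N646.RG.Dct

/-! Project RG: the theorem on Goldbach representations. -/

set_option autoImplicit false

namespace Pool.Agent.N646.RG

open Finset Filter Topology
open Pool.Agent.N646.RO (S_WC)

/-- the forms `n, n + r, m - n, m - r - n` -/
def fG (m r : ℤ) : Fin 4 → ℤ × ℤ := ![(1, 0), (1, r), (-1, m), (-1, m - r)]

theorem fG0 (m r : ℤ) (t : ℕ) : sh (fG m r 0) t = (1, (t : ℤ)) := by simp [fG, sh]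
theorem fG1 (m r : ℤ) (t : ℕ) : sh (fG m r 1) t = (1, r + t) := by simp [fG, sh]
theorem fG2 (m r : ℤ) (t : ℕ) : sh (fG m r 2) t = (-1, m + t) := by simp [fG, sh]
theorem fG3 (m r : ℤ) (t : ℕ) : sh (fG m r 3) t = (-1, m - r + t) := by simp [fG, sh]

/-- sizes -/
theorem afm1 {N : ℕ} {c : ℤ} (h0 : 0 ≤ c) (h1 : 10 * c ≤ 9 * N) : Afm N (1, c) := by
  refine ⟨Or.inl rfl, ?_, fun t ht1 _ => ?_⟩
  · show 10 * |c| ≤ 9 * N
    rw [abs_of_nonneg h0]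
    exact h1
  · have hc : (0 : ℝ) ≤ c := by exact_mod_cast h0
    have hN : (0 : ℝ) ≤ N := Nat.cast_nonneg _
    show (N : ℝ) / 20 ≤ ((1 : ℤ) : ℝ) * t + c
    push_cast
    linarith

theorem afm2 {N : ℕ} {c : ℤ} (h0 : 11 * N ≤ 20 * c) (h1 : 10 * c ≤ 9 * N) : Afm N (-1, c) := by
  have hN : (0 : ℤ) ≤ N := Int.natCast_nonneg _
  refine ⟨Or.inr rfl, ?_, fun t _ ht2 => ?_⟩
  · show 10 * |c| ≤ 9 * N
    rw [abs_of_nonneg (by linarith)]
    exact h1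
  · have hc : (11 : ℝ) * N ≤ 20 * c := by exact_mod_cast h0
    show (N : ℝ) / 20 ≤ ((-1 : ℤ) : ℝ) * t + c
    push_cast
    linarith

theorem afmG {N m r M T : ℕ} (hr : r ≤ m) (h1 : 10 * (m + M * T) ≤ 9 * N)
    (h2 : 11 * N + 20 * r ≤ 20 * m) : ∀ i, ∀ t ≤ T, Afm N (sh (fG m r i) (M * t)) := by
  intro i t ht
  have h3 : M * t ≤ M * T := Nat.mul_le_mul_left _ ht
  fin_cases i
  · show Afm N (sh (fG m r 0) (M * t))
    rw [fG0]
    exact afm1 (by positivity) (by push_cast at *; omega)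
  · show Afm N (sh (fG m r 1) (M * t))
    rw [fG1]
    exact afm1 (by positivity) (by push_cast at *; omega)
  · show Afm N (sh (fG m r 2) (M * t))
    rw [fG2]
    exact afm2 (by push_cast at *; omega) (by push_cast at *; omega)
  · show Afm N (sh (fG m r 3) (M * t))
    rw [fG3]
    exact afm2 (by push_cast at *; omega) (by push_cast at *; omega)

open Classical in
/-- **the alternative for one class** -/
theorem altG {ε₁ κ : ℝ} (hκ : 0 < κ) {x u L M T r N m : ℕ} (hM : 1 ≤ M)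
    (hx : 1000 * M ≤ x) (hx3 : 3 ≤ x) (hux : x ≤ u) (hux2 : u ≤ 2 * x) (hN : N = 3 * u / 2) (hT1 : 1 ≤ T)
    (hTa : 2 * (M * T) + 4 * M ≤ L) (hLx : 8 * L ≤ x)
    (hr : r < M) (hm : m ∈ Ico u (u + M)) (hr2 : 2 ∣ r) (hm2 : 2 ∣ m) (hM2 : 6 ∣ M) (h3 : 3 ∣ m ∨ 3 ∣ r)
    {P : Prop} (hcl : ∀ f : Fin 4 → ℤ × ℤ, (∀ i, ∀ t ≤ T, Afm N (sh (f i) (M * t))) →
      (∀ p : ℕ, p.Prime → p ∣ M → ∃ r : ℤ, ∀ i, ¬ (p : ℤ) ∣ (f i).1 * r + (f i).2) →
      ∃ A : Fin 4 → Finset ℕ, (∀ i, A i ⊆ range T) ∧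
        (5 / 18 - ε₁ / 4) * ((4 : ℕ) * T) ≤ ((∑ i, (A i).card : ℕ) : ℝ) ∧
        ∀ i j, (((A i ×ˢ A j).filter (fun x => (i, x.1) ≠ (j, x.2) ∧
          ¬ Gdf κ N ![sh (f i) (M * x.1), sh (f j) (M * x.2)])).card : ℝ) ≤ ε₁ / 4 * (T : ℝ) ^ 2)
    (hε₁ : 0 < ε₁)
    (hcomb : ∀ A₀ A₁ B₀ B₁ : Finset ℕ, A₀ ⊆ range T → A₁ ⊆ range T → B₀ ⊆ range T → B₁ ⊆ range T →
      (10 / 9 - ε₁) * T ≤ (A₀.card : ℝ) + A₁.card + B₀.card + B₁.card →
      (((A₀ ×ˢ B₀).filter (fun x => ¬ κ / 4 * (((m + M + M * (x.1 + x.2) : ℕ) : ℝ) /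
        (Real.log ((m + M + M * (x.1 + x.2) : ℕ) : ℝ)) ^ 2) ≤
          (reps (m + M + M * (x.1 + x.2)) : ℝ))).card : ℝ) ≤ ε₁ * (T : ℝ) ^ 2 →
      (((A₁ ×ˢ B₁).filter (fun x => ¬ κ / 4 * (((m + M + M * (x.1 + x.2) : ℕ) : ℝ) /
        (Real.log ((m + M + M * (x.1 + x.2) : ℕ) : ℝ)) ^ 2) ≤
          (reps (m + M + M * (x.1 + x.2)) : ℝ))).card : ℝ) ≤ ε₁ * (T : ℝ) ^ 2 →
      (((A₁ ×ˢ B₀).filter (fun x => ¬ κ / 4 * (((m + (M + r) + M * (x.1 + x.2) : ℕ) : ℝ) /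
        (Real.log ((m + (M + r) + M * (x.1 + x.2) : ℕ) : ℝ)) ^ 2) ≤
          (reps (m + (M + r) + M * (x.1 + x.2)) : ℝ))).card : ℝ) ≤ ε₁ * (T : ℝ) ^ 2 →
      (((A₀ ×ˢ B₁).filter (fun x => ¬ κ / 4 * (((m + (M - r) + M * (x.1 + x.2) : ℕ) : ℝ) /
        (Real.log ((m + (M - r) + M * (x.1 + x.2) : ℕ) : ℝ)) ^ 2) ≤
          (reps (m + (M - r) + M * (x.1 + x.2)) : ℝ))).card : ℝ) ≤ ε₁ * (T : ℝ) ^ 2 →
      (((A₀ ×ˢ A₁).filter (fun y => y.1 ≤ y.2 ∧ ¬ κ / 4 * ((x : ℝ) / (Real.log x) ^ 2) ≤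
        (prs (3 * x) (r + M * (y.2 - y.1)) : ℝ))).card : ℝ) ≤ ε₁ * (T : ℝ) ^ 2 →
      (((B₁ ×ˢ B₀).filter (fun y => y.1 ≤ y.2 ∧ ¬ κ / 4 * ((x : ℝ) / (Real.log x) ^ 2) ≤
        (prs (3 * x) (r + M * (y.2 - y.1)) : ℝ))).card : ℝ) ≤ ε₁ * (T : ℝ) ^ 2 → P) : P := by
  have hm' := mem_Ico.1 hm
  have hMTx : 16 * (M * T) ≤ x := by omega
  have hμ : ((m + M : ℕ) : ℤ) = (m : ℤ) + M := by push_cast; ring
  obtain ⟨A, hA1, hA2, hA3⟩ := hcl (fG (m + M : ℕ) r)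
    (afmG (by omega) (by omega) (by omega)) (by
      intro p hp _
      obtain ⟨w, h1, h2, h4, h5⟩ := loc4 ((m + M : ℕ) : ℤ) r (by omega) (by omega) (by omega) p hp
      refine ⟨w, fun i => ?_⟩
      fin_cases i
      · simpa [fG] using h1
      · simpa [fG] using h2
      · simpa [fG] using h4
      · simpa [fG] using h5)
  -- sums
  have hE : ∀ (i j : Fin 4) (a b : ℤ) (c : ℕ), i ≠ j → (∀ t, sh (fG (m + M : ℕ) r i) t = (1, a + t)) →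
      (∀ t, sh (fG (m + M : ℕ) r j) t = (-1, b + t)) → ((m + c : ℕ) : ℤ) = a + b → c ≤ 2 * M →
      (((A i ×ˢ A j).filter (fun x => ¬ κ / 4 * (((m + c + M * (x.1 + x.2) : ℕ) : ℝ) /
        (Real.log ((m + c + M * (x.1 + x.2) : ℕ) : ℝ)) ^ 2) ≤
          (reps (m + c + M * (x.1 + x.2)) : ℝ))).card : ℝ) ≤ ε₁ * (T : ℝ) ^ 2 := by
    intro i j a b c hij ha hb hc hcM
    refine le_trans ?_ ((hA3 i j).trans (by nlinarith [sq_nonneg (T : ℝ)]))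
    rw [Nat.cast_le]
    apply card_le_card
    intro y hy
    obtain ⟨hy1, hy2⟩ := mem_filter.1 hy
    obtain ⟨hy3, hy4⟩ := mem_product.1 hy1
    have hy5 := mem_range.1 (hA1 i hy3)
    have hy6 := mem_range.1 (hA1 j hy4)
    refine mem_filter.2 ⟨hy1, fun h => hij (congrArg Prod.fst h), fun hG => hy2 ?_⟩
    rw [ha, hb] at hG
    have hb1 : M * (y.1 + y.2) ≤ M * (2 * T) := Nat.mul_le_mul_left _ (by omega)
    have hb2 : M * (2 * T) = 2 * (M * T) := by ring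
    have hsq : N ≤ (m + c + M * (y.1 + y.2)) ^ 2 := by
      have : 3 * (m + c + M * (y.1 + y.2)) ≤ (m + c + M * (y.1 + y.2)) ^ 2 := by
        rw [sq]
        exact Nat.mul_le_mul_right _ (by omega)
      omega
    refine (conv hκ (by omega) (by omega) hsq).trans (gdf_sum hG ?_)
    push_cast at hc ⊢
    linarith
  -- differences
  have hD : ∀ (i j : Fin 4) (σ a b : ℤ), i ≠ j → (σ = 1 ∨ σ = -1) →
      (∀ t, sh (fG (m + M : ℕ) r i) t = (σ, a + t)) →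
      (∀ t, sh (fG (m + M : ℕ) r j) t = (σ, b + t)) → b = a + r →
      (∀ n ∈ IN N, σ * n + a + M * T ≤ ((3 * x : ℕ) : ℤ)) →
      (((A i ×ˢ A j).filter (fun y => y.1 ≤ y.2 ∧ ¬ κ / 4 * ((x : ℝ) / (Real.log x) ^ 2) ≤
        (prs (3 * x) (r + M * (y.2 - y.1)) : ℝ))).card : ℝ) ≤ ε₁ * (T : ℝ) ^ 2 := by
    intro i j σ a b hij hσ ha hb hab hY
    refine le_trans ?_ ((hA3 i j).trans (by nlinarith [sq_nonneg (T : ℝ)]))
    rw [Nat.cast_le]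
    apply card_le_card
    intro y hy
    obtain ⟨hy1, hy0, hy2⟩ := mem_filter.1 hy
    obtain ⟨hy3, hy4⟩ := mem_product.1 hy1
    have hy5 := mem_range.1 (hA1 i hy3)
    refine mem_filter.2 ⟨hy1, fun h => hij (congrArg Prod.fst h), fun hG => hy2 ?_⟩
    rw [ha, hb] at hG
    have hsq : N ≤ x ^ 2 := by
      have : 3 * x ≤ x ^ 2 := by
        rw [sq]
        exact Nat.mul_le_mul_right _ hx3
      omega
    refine (conv hκ hx3 (by omega) hsq).trans (gdf_dif hσ hG ?_ ?_)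
    · rw [hab]
      push_cast [hy0]
      ring
    · intro n hn
      have h1 := hY n hn
      have h2 : ((M * y.1 : ℕ) : ℤ) ≤ M * T := by
        have : M * y.1 ≤ M * T := Nat.mul_le_mul_left _ hy5.le
        exact_mod_cast this
      linarith
  refine hcomb (A 0) (A 1) (A 2) (A 3) (hA1 _) (hA1 _) (hA1 _) (hA1 _) ?_ ?_ ?_ ?_ ?_ ?_ ?_
  · rw [Fin.sum_univ_four] at hA2
    push_cast at hA2
    linarith
  · exact hE 0 2 0 ((m + M : ℕ) : ℤ) M (by decide) (fun t => by rw [fG0, zero_add])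
      (fun t => by rw [fG2]) (by push_cast; ring) (by omega)
  · exact hE 1 3 r (((m + M : ℕ) : ℤ) - r) M (by decide) (fun t => by rw [fG1])
      (fun t => by rw [fG3]) (by push_cast; ring) (by omega)
  · exact hE 1 2 r ((m + M : ℕ) : ℤ) (M + r) (by decide) (fun t => by rw [fG1])
      (fun t => by rw [fG2]) (by push_cast; ring) (by omega)
  · exact hE 0 3 0 (((m + M : ℕ) : ℤ) - r) (M - r) (by decide) (fun t => by rw [fG0, zero_add])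
      (fun t => by rw [fG3]) (by push_cast [hr.le]; ring) (by omega)
  · refine hD 0 1 1 0 r (by decide) (Or.inl rfl) (fun t => by rw [fG0, zero_add])
      (fun t => by rw [fG1]) (by ring) ?_
    intro n hn
    unfold IN at hn
    have h1 := (mem_Icc.1 hn).2
    have h2 : n + M * T ≤ 3 * x := by omega
    have h3 : ((n + M * T : ℕ) : ℤ) ≤ ((3 * x : ℕ) : ℤ) := by exact_mod_cast h2
    push_cast at h3 ⊢
    linarith
  · refine hD 3 2 (-1) (((m + M : ℕ) : ℤ) - r) ((m + M : ℕ) : ℤ) (by decide) (Or.inr rfl)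
      (fun t => by rw [fG3]) (fun t => by rw [fG2]) (by ring) ?_
    intro n hn
    have h2 : m + M + M * T ≤ 3 * x := by omega
    have h3 : ((m + M + M * T : ℕ) : ℤ) ≤ ((3 * x : ℕ) : ℤ) := by exact_mod_cast h2
    have h4 : (0 : ℤ) ≤ (n : ℤ) := Int.natCast_nonneg _
    have h5 : (0 : ℤ) ≤ (r : ℤ) := Int.natCast_nonneg _
    push_cast at h3 ⊢
    linarith

end Pool.Agent.N646.RG
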