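import Pool.Agent.N646.RG.Gol

/-! Project RG: the theorem on Goldbach representations, assembly. -/

set_option autoImplicit false

namespace Pool.Agent.N646.RG

open Finset Filter Topology
open Pool.Agent.N646.RO (S_WC)

open Classical in
theorem mainG (hWC : S_WC) (hH : S_HITM2 1) (hPOL : S_POL) (ε lam : ℝ) (hε : 0 < ε) (hlam : 0 < lam) :
    ∃ κ : ℝ, 0 < κ ∧ ∀ᶠ x : ℕ in atTop, ∀ L : ℕ, lam * Real.log x ≤ L → 8 * L ≤ x →
      (∀ u : ℕ, x ≤ u → u ≤ 2 * x → (5 / 27 - ε) * (L / 2) ≤ (((Ico u (u + L)).filter (fun v : ℕ =>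
        Even v ∧ κ * (v / (Real.log v) ^ 2) ≤ (reps v : ℝ))).card : ℝ)) ∨
      (1 - ε) * (L / 40) ≤ (((Icc 1 (L / 20)).filter (fun h : ℕ =>
        Even h ∧ κ * (x / (Real.log x) ^ 2) ≤ (prs (3 * x) h : ℝ))).card : ℝ) := by
  set ε' : ℝ := min (ε / 80) 1 with hε'
  have hε'0 : 0 < ε' := lt_min (by positivity) one_pos
  have hε'1 : ε' ≤ ε / 80 := min_le_left _ _
  obtain ⟨ε₁, hε₁, T₀, hT₀, hcomb⟩ := comb hPOL ε' hε'0
  obtain ⟨M, hM, h6, hcl⟩ := clq hWC hH 4 (by norm_num) (ε₁ / 4) (by positivity)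
  have hMR : (1 : ℝ) ≤ M := by exact_mod_cast hM
  obtain ⟨κ, hκ, hev⟩ := hcl (lam / (8 * M)) (by positivity)
  obtain ⟨N₀, hN₀⟩ := eventually_atTop.1 hev
  refine ⟨κ / 4, by positivity, ?_⟩
  have hlog : Tendsto (fun N : ℕ => lam * Real.log (N : ℝ)) atTop atTop :=
    (Real.tendsto_log_atTop.comp tendsto_natCast_atTop_atTop).const_mul_atTop hlam
  filter_upwards [hlog.eventually_ge_atTop (100 * (M + 3) / ε + 100 * M + 2 * M * (T₀ + 3)),
    eventually_ge_atTop (N₀ + 1000 * M + 3)] with x hxl hx L hL1 hL2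
  have hLbig := hxl.trans hL1
  have hq1 : (0 : ℝ) ≤ 100 * (M + 3) / ε := by positivity
  have hq2 : (0 : ℝ) ≤ 2 * M * ((T₀ : ℝ) + 3) := by positivity
  have hL100 : 100 * M ≤ L := by
    have : (100 * M : ℝ) ≤ L := by linarith
    exact_mod_cast this
  have hLT : 2 * M * (T₀ + 3) ≤ L := by
    have : ((2 * M * (T₀ + 3) : ℕ) : ℝ) ≤ L := by
      push_cast
      linarith
    exact_mod_cast this
  have hLε : 100 * (M + 3) ≤ ε * L := by
    have h1 : 100 * ((M : ℝ) + 3) / ε ≤ L := by linarith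
    rw [div_le_iff₀ hε] at h1
    linarith
  have h2M : 0 < 2 * M := by omega
  set T : ℕ := L / (2 * M) - 2 with hT
  have hd1 : 2 * M * (L / (2 * M)) ≤ L := Nat.mul_div_le _ _
  have hd2 : L < 2 * M * (L / (2 * M) + 1) := Nat.lt_mul_div_succ L h2M
  have hd3 : T₀ + 3 ≤ L / (2 * M) := by
    rw [Nat.le_div_iff_mul_le h2M, mul_comm]
    exact hLT
  have hT2 : L / (2 * M) = T + 2 := by omega
  rw [hT2] at hd1 hd2
  have hTT₀ : T₀ ≤ T := by omega
  have hTa : 2 * (M * T) + 4 * M ≤ L := by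
    have : 2 * M * (T + 2) = 2 * (M * T) + 4 * M := by ring
    omega
  have hTb : L ≤ 2 * (M * T) + 6 * M := by
    have : 2 * M * (T + 2 + 1) = 2 * (M * T) + 6 * M := by ring
    omega
  have hTaR : 2 * ((M : ℝ) * T) + 4 * M ≤ L := by exact_mod_cast hTa
  have hTbR : (L : ℝ) ≤ 2 * (M * T) + 6 * M := by exact_mod_cast hTb
  have hL100R : 100 * (M : ℝ) ≤ L := by exact_mod_cast hL100
  have hT1 : 1 ≤ T := by omega
  by_cases hE : ∀ u : ℕ, x ≤ u → u ≤ 2 * x → (5 / 27 - ε) * (L / 2) ≤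
    (((Ico u (u + L)).filter (fun v : ℕ =>
        Even v ∧ κ / 4 * (v / (Real.log v) ^ 2) ≤ (reps v : ℝ))).card : ℝ)
  · exact Or.inl hE
  right
  push Not at hE
  obtain ⟨u, hu1, hu2, hu3⟩ := hE
  set N : ℕ := 3 * u / 2 with hN
  have hNN₀ : N₀ ≤ N := by omega
  have hNx : N ≤ x ^ 2 := by
    have : 3 * x ≤ x ^ 2 := by
      rw [sq]
      exact Nat.mul_le_mul_right _ (by omega)
    omega
  have hlogN : lam / (8 * M) * Real.log N ≤ T := by
    have hxR : (3 : ℝ) ≤ x := by exact_mod_cast (by omega : 3 ≤ x)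
    have hNpos : (0 : ℝ) < N := by exact_mod_cast (by omega : 0 < N)
    have h1 : Real.log N ≤ 2 * Real.log x := by
      have h3 : (N : ℝ) ≤ (x : ℝ) ^ 2 := by exact_mod_cast hNx
      have h4 := Real.log_le_log hNpos h3
      rw [Real.log_pow] at h4
      exact_mod_cast h4
    rw [div_mul_eq_mul_div, div_le_iff₀ (by positivity)]
    have h2 : lam * Real.log N ≤ 2 * L := by
      have := mul_le_mul_of_nonneg_left h1 hlam.le
      linarith
    have h3 : (2 * L : ℝ) ≤ T * (8 * M) := by nlinarith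
    linarith
  have hcl' := hN₀ N hNN₀ T hlogN (by omega)
  have key : ∀ r < M, 2 ∣ r → (((range T).filter (fun t => 10 * t ≤ T ∧
      ¬ κ / 4 * ((x : ℝ) / (Real.log x) ^ 2) ≤ (prs (3 * x) (r + M * t) : ℝ))).card : ℝ) ≤ ε' * T := by
    intro r hr hr2
    by_contra hcon
    have hw := window u L M T r hM h6 hr hr2 hTa
      (fun v : ℕ => κ / 4 * (v / (Real.log v) ^ 2) ≤ (reps v : ℝ)) ((10 / 9 - ε') * T) (by
      intro m hm hm2 h3
      refine altG (ε₁ := ε₁) hκ hM (by omega) (by omega) hu1 hu2 hN hT1 hTa hL2 hr hm hr2 hm2 h6 h3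
        (fun f hf1 hf2 => hcl' f hf1 hf2) hε₁ ?_
      intro A₀ A₁ B₀ B₁ s1 s2 s3 s4 htot b1 b2 b3 b4 b5 b6
      rcases hcomb T hTT₀ A₀ A₁ B₀ B₁ s1 s2 s3 s4 htot
        (fun s => κ / 4 * (((m + M + M * s : ℕ) : ℝ) / (Real.log ((m + M + M * s : ℕ) : ℝ)) ^ 2) ≤
          (reps (m + M + M * s) : ℝ))
        (fun s => κ / 4 * (((m + (M + r) + M * s : ℕ) : ℝ) /
          (Real.log ((m + (M + r) + M * s : ℕ) : ℝ)) ^ 2) ≤ (reps (m + (M + r) + M * s) : ℝ))
        (fun s => κ / 4 * (((m + (M - r) + M * s : ℕ) : ℝ) /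
          (Real.log ((m + (M - r) + M * s : ℕ) : ℝ)) ^ 2) ≤ (reps (m + (M - r) + M * s) : ℝ))
        (fun t => κ / 4 * ((x : ℝ) / (Real.log x) ^ 2) ≤ (prs (3 * x) (r + M * t) : ℝ))
        b1 b2 b3 b4 b5 b6 with h | h
      · exact absurd h hcon
      · exact h)
    have hlow : (5 / 27 - ε) * (L / 2) ≤ (M : ℝ) / 6 * ((10 / 9 - ε') * T) := by
      have hε'2 : ε' ≤ 1 := min_le_right _ _
      have h1 : (10 / 9 - ε') * ((L : ℝ) - 6 * M) ≤ (10 / 9 - ε') * (2 * (M * T)) :=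
        mul_le_mul_of_nonneg_left (by linarith) (by linarith)
      have h2 : ε' * L ≤ ε / 80 * L := mul_le_mul_of_nonneg_right hε'1 (Nat.cast_nonneg _)
      have h3 : 0 ≤ ε' * M := by positivity
      nlinarith
    have hu3' := hlow.trans hw
    exact absurd hu3' (not_le.2 hu3)
  have hfin := dcount M T L hM (by omega) hT1 hTb
    (fun h : ℕ => κ / 4 * ((x : ℝ) / (Real.log x) ^ 2) ≤ (prs (3 * x) h : ℝ)) (ε' * T) key
  refine le_trans ?_ hfin
  have h2 : ε' * (M * T) ≤ ε / 80 * (L / 2) := by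
    have h3 : (M : ℝ) * T ≤ L / 2 := by linarith
    exact mul_le_mul hε'1 h3 (by positivity) (by positivity)
  have h3 : (M : ℝ) * (ε' * T) = ε' * (M * T) := by ring
  rw [h3]
  linarith

end Pool.Agent.N646.RG
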