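import Pool.Agent.N646.RG.Clq
import Pool.Agent.N646.RG.Cmb

/-! Project RG: forms and prime pairs. -/

set_option autoImplicit false

namespace Pool.Agent.N646.RG

open Finset Filter Topology

/-- the number of the ordered pairs of primes with sum `m` -/
def reps (m : ℕ) : ℕ := ((antidiagonal m).filter (fun x => x.1.Prime ∧ x.2.Prime)).card

/-- the number of the primes `p ≤ y` such that `p + h` is prime -/
def prs (y h : ℕ) : ℕ := ((Icc 1 y).filter (fun p => p.Prime ∧ (p + h).Prime)).card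

/-- sums -/
theorem gdf_sum {κ : ℝ} {N v : ℕ} {a b : ℤ} (h : Gdf κ N ![((1 : ℤ), a), ((-1 : ℤ), b)])
    (hv : (v : ℤ) = a + b) : κ * (N / (Real.log N) ^ 2) ≤ (reps v : ℝ) := by
  unfold Gdf at h
  refine h.trans ?_
  rw [Nat.cast_le]
  unfold reps
  apply card_le_card_of_injOn (fun n : ℕ => (((1 : ℤ) * n + a).toNat, ((-1 : ℤ) * n + b).toNat))
  · intro n hn
    rw [mem_coe, mem_filter] at hn
    have h0 : ((1 : ℤ) * n + a).toNat.Prime := hn.2 0
    have h1 : ((-1 : ℤ) * n + b).toNat.Prime := hn.2 1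
    rw [mem_coe, mem_filter, HasAntidiagonal.mem_antidiagonal]
    refine ⟨?_, h0, h1⟩
    have := h0.pos
    have := h1.pos
    show ((1 : ℤ) * n + a).toNat + ((-1 : ℤ) * n + b).toNat = v
    omega
  · intro n hn n' hn' he
    rw [mem_coe, mem_filter] at hn hn'
    have h0 : ((1 : ℤ) * n + a).toNat.Prime := hn.2 0
    have h0' : ((1 : ℤ) * n' + a).toNat.Prime := hn'.2 0
    have := h0.pos
    have := h0'.pos
    simp only [Prod.mk.injEq] at he
    omega

/-- differences -/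
theorem gdf_dif {κ : ℝ} {N Y h : ℕ} {σ a b : ℤ} (hσ : σ = 1 ∨ σ = -1)
    (hG : Gdf κ N ![(σ, a), (σ, b)]) (hb : b = a + h) (hY : ∀ n ∈ IN N, σ * n + a ≤ Y) :
    κ * (N / (Real.log N) ^ 2) ≤ (prs Y h : ℝ) := by
  unfold Gdf at hG
  refine hG.trans ?_
  rw [Nat.cast_le]
  unfold prs
  apply card_le_card_of_injOn (fun n : ℕ => (σ * n + a).toNat)
  · intro n hn
    rw [mem_coe, mem_filter] at hn
    have h0 : (σ * n + a).toNat.Prime := hn.2 0
    have h1 : (σ * n + b).toNat.Prime := hn.2 1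
    have h2 := hY n hn.1
    have h3 := h0.pos
    rw [mem_coe, mem_filter, mem_Icc]
    refine ⟨⟨h3, by show (σ * n + a).toNat ≤ Y; omega⟩, h0, ?_⟩
    have : (σ * n + b).toNat = (σ * n + a).toNat + h := by
      rw [hb]
      omega
    rw [← this]
    exact h1
  · intro n hn n' hn' he
    rw [mem_coe, mem_filter] at hn hn'
    have h0 : (σ * n + a).toNat.Prime := hn.2 0
    have h0' : (σ * n' + a).toNat.Prime := hn'.2 0
    have h1 := h0.pos
    have h2 := h0'.pos
    simp only at he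
    have h3 : σ * n + a = σ * n' + a := by omega
    have h4 : σ * n = σ * n' := by linarith
    rcases hσ with hσ | hσ <;> subst hσ <;> omega

/-- comparison of the orders of magnitude -/
theorem conv {κ : ℝ} (hκ : 0 < κ) {v N : ℕ} (hv : 3 ≤ v) (h1 : v ≤ N) (h2 : N ≤ v ^ 2) :
    κ / 4 * (v / (Real.log v) ^ 2) ≤ κ * (N / (Real.log N) ^ 2) := by
  have hvR : (3 : ℝ) ≤ v := by exact_mod_cast hv
  have hlv : 0 < Real.log v := Real.log_pos (by linarith)
  have hNR : (v : ℝ) ≤ N := by exact_mod_cast h1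
  have hlN : 0 < Real.log N := Real.log_pos (by linarith)
  have hlN2 : Real.log N ≤ 2 * Real.log v := by
    have h3 : (N : ℝ) ≤ (v : ℝ) ^ 2 := by exact_mod_cast h2
    have h4 := Real.log_le_log (by linarith) h3
    rw [Real.log_pow] at h4
    exact_mod_cast h4
  have h5 : (v : ℝ) / (4 * (Real.log v) ^ 2) ≤ N / (Real.log N) ^ 2 := by
    apply div_le_div₀ (by linarith) hNR (by positivity)
    nlinarith
  calc κ / 4 * (v / (Real.log v) ^ 2) = κ * ((v : ℝ) / (4 * (Real.log v) ^ 2)) := by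
        field_simp
    _ ≤ κ * (N / (Real.log N) ^ 2) := mul_le_mul_of_nonneg_left h5 hκ.le

/-- a residue different from four given ones -/
theorem avoid4 (p : ℕ) (hp : p.Prime) (hp5 : 5 ≤ p) (a b c d : ℤ) :
    ∃ w : ℤ, ¬ (p : ℤ) ∣ w - a ∧ ¬ (p : ℤ) ∣ w - b ∧ ¬ (p : ℤ) ∣ w - c ∧ ¬ (p : ℤ) ∣ w - d := by
  classical
  have := Fact.mk hp
  obtain ⟨z, hz⟩ : ∃ z : ZMod p, z ∉ ({(a : ZMod p), (b : ZMod p), (c : ZMod p), (d : ZMod p)} :
      Finset (ZMod p)) := by
    by_contra hcon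
    push Not at hcon
    have h1 : (univ : Finset (ZMod p)) ⊆ {(a : ZMod p), (b : ZMod p), (c : ZMod p), (d : ZMod p)} :=
      fun z _ => hcon z
    have h2 := card_le_card h1
    rw [card_univ, ZMod.card] at h2
    have h3 : ({(a : ZMod p), (b : ZMod p), (c : ZMod p), (d : ZMod p)} : Finset (ZMod p)).card ≤ 4 :=
      card_le_four
    omega
  simp only [mem_insert, mem_singleton, not_or] at hz
  have key : ∀ e : ℤ, z ≠ (e : ZMod p) → ¬ (p : ℤ) ∣ (z.val : ℤ) - e := by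
    intro e he hd
    apply he
    have h1 := (ZMod.intCast_zmod_eq_zero_iff_dvd ((z.val : ℤ) - e) p).2 hd
    push_cast at h1
    rw [ZMod.natCast_zmod_val] at h1
    exact sub_eq_zero.1 h1
  exact ⟨(z.val : ℤ), key a hz.1, key b hz.2.1, key c hz.2.2.1, key d hz.2.2.2⟩

/-- the local condition for `n, n + r, m - n, m - r - n` -/
theorem loc4 (m r : ℤ) (hm : 2 ∣ m) (hr : 2 ∣ r) (h3 : 3 ∣ m ∨ 3 ∣ r) (p : ℕ) (hp : p.Prime) :
    ∃ w : ℤ, ¬ (p : ℤ) ∣ w ∧ ¬ (p : ℤ) ∣ w + r ∧ ¬ (p : ℤ) ∣ -w + m ∧ ¬ (p : ℤ) ∣ -w + (m - r) := by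
  rcases Nat.lt_or_ge p 5 with h5 | h5
  · have h2p := hp.two_le
    have h4 : p ≠ 4 := by
      rintro rfl
      exact absurd hp (by norm_num)
    have : p = 2 ∨ p = 3 := by omega
    rcases this with rfl | rfl
    · refine ⟨1, ?_, ?_, ?_, ?_⟩ <;> omega
    · by_cases hr3 : (3 : ℤ) ∣ r
      · by_cases hm1 : m % 3 = 1
        · refine ⟨2, ?_, ?_, ?_, ?_⟩ <;> omega
        · refine ⟨1, ?_, ?_, ?_, ?_⟩ <;> omega
      · have hm3 : (3 : ℤ) ∣ m := h3.resolve_right hr3
        refine ⟨r, ?_, ?_, ?_, ?_⟩ <;> omega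
  · obtain ⟨w, h1, h2, h3, h4⟩ := avoid4 p hp h5 0 (-r) m (m - r)
    refine ⟨w, ?_, ?_, ?_, ?_⟩
    · simpa using h1
    · simpa using h2
    · intro hd
      apply h3
      have := (dvd_neg (α := ℤ)).2 hd
      have e : w - m = -(-w + m) := by ring
      rw [e]
      exact this
    · intro hd
      apply h4
      have := (dvd_neg (α := ℤ)).2 hd
      have e : w - (m - r) = -(-w + (m - r)) := by ring
      rw [e]
      exact this

end Pool.Agent.N646.RG
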