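import Pool.Agent.N646.RG.Gol

/-! Project RG: the alternative for windows of differences. -/

set_option autoImplicit false

namespace Pool.Agent.N646.RG

open Finset Filter Topology
open Pool.Agent.N646.RO (S_WC)

/-- the forms `n, n + r, n + m, n + m + r` -/
def fP (m r : ℤ) : Fin 4 → ℤ × ℤ := ![(1, 0), (1, r), (1, m), (1, m + r)]

theorem fP0 (m r : ℤ) (t : ℕ) : sh (fP m r 0) t = (1, (t : ℤ)) := by simp [fP, sh]
theorem fP1 (m r : ℤ) (t : ℕ) : sh (fP m r 1) t = (1, r + t) := by simp [fP, sh]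
theorem fP2 (m r : ℤ) (t : ℕ) : sh (fP m r 2) t = (1, m + t) := by simp [fP, sh]
theorem fP3 (m r : ℤ) (t : ℕ) : sh (fP m r 3) t = (1, m + r + t) := by simp [fP, sh]

theorem afmP {N m r M T : ℕ} (h1 : 10 * (m + r + M * T) ≤ 9 * N) :
    ∀ i, ∀ t ≤ T, Afm N (sh (fP m r i) (M * t)) := by
  intro i t ht
  have h3 : M * t ≤ M * T := Nat.mul_le_mul_left _ ht
  fin_cases i
  · show Afm N (sh (fP m r 0) (M * t))
    rw [fP0]
    exact afm1 (by positivity) (by push_cast at *; omega)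
  · show Afm N (sh (fP m r 1) (M * t))
    rw [fP1]
    exact afm1 (by positivity) (by push_cast at *; omega)
  · show Afm N (sh (fP m r 2) (M * t))
    rw [fP2]
    exact afm1 (by positivity) (by push_cast at *; omega)
  · show Afm N (sh (fP m r 3) (M * t))
    rw [fP3]
    exact afm1 (by positivity) (by push_cast at *; omega)

theorem locP (m r : ℤ) (hm : 2 ∣ m) (hr : 2 ∣ r) (h3 : 3 ∣ m ∨ 3 ∣ r) (p : ℕ) (hp : p.Prime) :
    ∃ w : ℤ, ¬ (p : ℤ) ∣ w ∧ ¬ (p : ℤ) ∣ w + r ∧ ¬ (p : ℤ) ∣ w + m ∧ ¬ (p : ℤ) ∣ w + (m + r) := by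
  obtain ⟨w, h1, h2, h4, h5⟩ := loc4 (-m) r (by omega) hr (by omega) p hp
  refine ⟨w, h1, h2, ?_, ?_⟩
  · intro hd
    apply h4
    have e : -w + -m = -(w + m) := by ring
    rw [e]
    exact (dvd_neg (α := ℤ)).2 hd
  · intro hd
    apply h5
    have e : -w + (-m - r) = -(w + (m + r)) := by ring
    rw [e]
    exact (dvd_neg (α := ℤ)).2 hd

/-- the reflected set -/
def refl (T : ℕ) (A : Finset ℕ) : Finset ℕ := A.image (fun y => T - 1 - y)

theorem refl_sub {T : ℕ} (hT : 1 ≤ T) {A : Finset ℕ} : refl T A ⊆ range T := by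
  intro z hz
  obtain ⟨y, _, rfl⟩ := mem_image.1 hz
  rw [mem_range]
  show T - 1 - y < T
  omega

theorem refl_card {T : ℕ} {A : Finset ℕ} (hA : A ⊆ range T) : (refl T A).card = A.card := by
  apply card_image_of_injOn
  intro y hy z hz h
  have h1 := mem_range.1 (hA (mem_coe.1 hy))
  have h2 := mem_range.1 (hA (mem_coe.1 hz))
  have h3 : T - 1 - y = T - 1 - z := h
  omega

theorem refl_mem {T : ℕ} {A : Finset ℕ} (hA : A ⊆ range T) {z : ℕ} (hz : z ∈ refl T A) :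
    T - 1 - z ∈ A ∧ z + (T - 1 - z) = T - 1 := by
  obtain ⟨y, hy, rfl⟩ := mem_image.1 hz
  have h1 := mem_range.1 (hA hy)
  have h2 : T - 1 - (T - 1 - y) = y := by omega
  show T - 1 - (T - 1 - y) ∈ A ∧ T - 1 - y + (T - 1 - (T - 1 - y)) = T - 1
  rw [h2]
  exact ⟨hy, by omega⟩

open Classical in
/-- **the alternative for one class** -/
theorem altP {ε₁ κ : ℝ} (hκ : 0 < κ) {x u L M T r N m : ℕ} (hM : 1 ≤ M)
    (hx : 1000 * M ≤ x) (hx3 : 3 ≤ x) (hux : u ≤ x) (hN : N = 2 * x) (hT1 : 1 ≤ T)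
    (hTa : 2 * (M * T) + 4 * M ≤ L) (hLx : 8 * L ≤ x)
    (hr : r < M) (hm : m ∈ Ico u (u + M)) (hr2 : 2 ∣ r) (hm2 : 2 ∣ m) (hM2 : 6 ∣ M) (h3 : 3 ∣ m ∨ 3 ∣ r)
    {P : Prop} (hcl : ∀ f : Fin 4 → ℤ × ℤ, (∀ i, ∀ t ≤ T, Afm N (sh (f i) (M * t))) →
      (∀ p : ℕ, p.Prime → p ∣ M → ∃ r : ℤ, ∀ i, ¬ (p : ℤ) ∣ (f i).1 * r + (f i).2) →
      ∃ A : Fin 4 → Finset ℕ, (∀ i, A i ⊆ range T) ∧
        (5 / 18 - ε₁ / 4) * ((4 : ℕ) * T) ≤ ((∑ i, (A i).card : ℕ) : ℝ) ∧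
        ∀ i j, (((A i ×ˢ A j).filter (fun x => (i, x.1) ≠ (j, x.2) ∧
          ¬ Gdf κ N ![sh (f i) (M * x.1), sh (f j) (M * x.2)])).card : ℝ) ≤ ε₁ / 4 * (T : ℝ) ^ 2)
    (hε₁ : 0 < ε₁)
    (hcomb : ∀ A₀ A₁ B₀ B₁ : Finset ℕ, A₀ ⊆ range T → A₁ ⊆ range T → B₀ ⊆ range T → B₁ ⊆ range T →
      (10 / 9 - ε₁) * T ≤ (A₀.card : ℝ) + A₁.card + B₀.card + B₁.card →
      (((A₀ ×ˢ B₀).filter (fun y => ¬ κ / 4 * ((x : ℝ) / (Real.log x) ^ 2) ≤
          (prs (3 * x) (m + M + M * (y.1 + y.2)) : ℝ))).card : ℝ) ≤ ε₁ * (T : ℝ) ^ 2 →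
      (((A₁ ×ˢ B₁).filter (fun y => ¬ κ / 4 * ((x : ℝ) / (Real.log x) ^ 2) ≤
          (prs (3 * x) (m + M + M * (y.1 + y.2)) : ℝ))).card : ℝ) ≤ ε₁ * (T : ℝ) ^ 2 →
      (((A₁ ×ˢ B₀).filter (fun y => ¬ κ / 4 * ((x : ℝ) / (Real.log x) ^ 2) ≤
          (prs (3 * x) (m + (M + r) + M * (y.1 + y.2)) : ℝ))).card : ℝ) ≤ ε₁ * (T : ℝ) ^ 2 →
      (((A₀ ×ˢ B₁).filter (fun y => ¬ κ / 4 * ((x : ℝ) / (Real.log x) ^ 2) ≤
          (prs (3 * x) (m + (M - r) + M * (y.1 + y.2)) : ℝ))).card : ℝ) ≤ ε₁ * (T : ℝ) ^ 2 →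
      (((A₀ ×ˢ A₁).filter (fun y => y.1 ≤ y.2 ∧ ¬ κ / 4 * ((x : ℝ) / (Real.log x) ^ 2) ≤
        (prs (3 * x) (r + M * (y.2 - y.1)) : ℝ))).card : ℝ) ≤ ε₁ * (T : ℝ) ^ 2 →
      (((B₁ ×ˢ B₀).filter (fun y => y.1 ≤ y.2 ∧ ¬ κ / 4 * ((x : ℝ) / (Real.log x) ^ 2) ≤
        (prs (3 * x) (r + M * (y.2 - y.1)) : ℝ))).card : ℝ) ≤ ε₁ * (T : ℝ) ^ 2 → P) : P := by
  have hm' := mem_Ico.1 hm
  have hMTx : 16 * (M * T) ≤ x := by omega
  obtain ⟨A, hA1, hA2, hA3⟩ := hcl (fP (m + M * T : ℕ) r)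
    (afmP (by omega)) (by
      intro p hp _
      have h2M : 2 ∣ M * T := Dvd.dvd.mul_right (Dvd.dvd.trans (by norm_num) hM2) T
      have h3M : 3 ∣ M * T := Dvd.dvd.mul_right (Dvd.dvd.trans (by norm_num) hM2) T
      obtain ⟨w, h1, h2, h4, h5⟩ := locP ((m + M * T : ℕ) : ℤ) r (by omega) (by omega) (by omega) p hp
      refine ⟨w, fun i => ?_⟩
      fin_cases i
      · simpa [fP] using h1
      · simpa [fP] using h2
      · simpa [fP] using h4
      · simpa [fP] using h5)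
  have hsq : N ≤ x ^ 2 := by
    have : 3 * x ≤ x ^ 2 := by
      rw [sq]
      exact Nat.mul_le_mul_right _ hx3
    omega
  -- one good pair
  have hG : ∀ (a b : ℤ) (h : ℕ), Gdf κ N ![((1 : ℤ), a), ((1 : ℤ), b)] → b = a + h →
      a ≤ ((x + 2 * (M * T) + 2 * M : ℕ) : ℤ) →
      κ / 4 * ((x : ℝ) / (Real.log x) ^ 2) ≤ (prs (3 * x) h : ℝ) := by
    intro a b h hGd hb ha
    refine (conv hκ hx3 (by omega) hsq).trans (gdf_dif (Or.inl rfl) hGd hb ?_)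
    intro n hn
    unfold IN at hn
    have h1 := (mem_Icc.1 hn).2
    have h2 : n + (x + 2 * (M * T) + 2 * M) ≤ 3 * x := by omega
    have h3 : ((n + (x + 2 * (M * T) + 2 * M) : ℕ) : ℤ) ≤ ((3 * x : ℕ) : ℤ) := by exact_mod_cast h2
    push_cast at h3 ha ⊢
    linarith
  -- windows of differences
  have hE : ∀ (i j : Fin 4) (a b : ℤ) (c : ℕ), i ≠ j →
      (∀ t, sh (fP (m + M * T : ℕ) r i) t = (1, a + t)) →
      (∀ t, sh (fP (m + M * T : ℕ) r j) t = (1, b + t)) → 0 ≤ a → a ≤ r →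
      b = a + ((m + M * T : ℕ) : ℤ) + ((c : ℤ) - M) →
      (((refl T (A i) ×ˢ A j).filter (fun y => ¬ κ / 4 * ((x : ℝ) / (Real.log x) ^ 2) ≤
          (prs (3 * x) (m + c + M * (y.1 + y.2)) : ℝ))).card : ℝ) ≤ ε₁ * (T : ℝ) ^ 2 := by
    intro i j a b c hij ha hb ha0 har hc
    refine le_trans ?_ ((hA3 i j).trans (by nlinarith [sq_nonneg (T : ℝ)]))
    rw [Nat.cast_le]
    apply card_le_card_of_injOn (fun y => (T - 1 - y.1, y.2))
    · intro y hy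
      rw [mem_coe] at hy
      obtain ⟨hy1, hy2⟩ := mem_filter.1 hy
      obtain ⟨hy3, hy4⟩ := mem_product.1 hy1
      obtain ⟨hy5, hy6⟩ := refl_mem (hA1 i) hy3
      have hy7 := mem_range.1 (hA1 i hy5)
      rw [mem_coe]
      refine mem_filter.2 ⟨mem_product.2 ⟨hy5, hy4⟩, fun h => hij (congrArg Prod.fst h),
        fun hGd => hy2 ?_⟩
      rw [ha, hb] at hGd
      apply hG _ _ _ hGd
      · rw [hc]
        have h1 : ((T - 1 - y.1 : ℕ) : ℤ) = (T : ℤ) - 1 - y.1 := by omega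
        push_cast
        rw [h1]
        ring
      · have h1 : M * (T - 1 - y.1) ≤ M * T := Nat.mul_le_mul_left _ (by omega)
        have h2 : ((M * (T - 1 - y.1) : ℕ) : ℤ) ≤ ((M * T : ℕ) : ℤ) := by exact_mod_cast h1
        have h3 : (r : ℤ) < M := by exact_mod_cast hr
        push_cast at h2 ⊢
        have h4 : (0 : ℤ) ≤ (M : ℤ) * T := by positivity
        linarith
    · intro y hy z hz h
      rw [mem_coe] at hy hz
      have h1 := mem_range.1 (refl_sub hT1 (mem_product.1 (mem_filter.1 hy).1).1)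
      have h2 := mem_range.1 (refl_sub hT1 (mem_product.1 (mem_filter.1 hz).1).1)
      simp only [Prod.mk.injEq] at h
      exact Prod.ext (by omega) h.2
  refine hcomb (refl T (A 1)) (refl T (A 0)) (A 3) (A 2) (refl_sub hT1) (refl_sub hT1) (hA1 _) (hA1 _)
    ?_ ?_ ?_ ?_ ?_ ?_ ?_
  · rw [refl_card (hA1 1), refl_card (hA1 0)]
    rw [Fin.sum_univ_four] at hA2
    push_cast at hA2
    linarith
  · exact hE 1 3 r (((m + M * T : ℕ) : ℤ) + r) M (by decide) (fun t => by rw [fP1])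
      (fun t => by rw [fP3]) (by omega) le_rfl (by ring)
  · exact hE 0 2 0 ((m + M * T : ℕ) : ℤ) M (by decide) (fun t => by rw [fP0, zero_add])
      (fun t => by rw [fP2]) le_rfl (by omega) (by ring)
  · exact hE 0 3 0 (((m + M * T : ℕ) : ℤ) + r) (M + r) (by decide) (fun t => by rw [fP0, zero_add])
      (fun t => by rw [fP3]) le_rfl (by omega) (by push_cast; ring)
  · exact hE 1 2 r ((m + M * T : ℕ) : ℤ) (M - r) (by decide) (fun t => by rw [fP1])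
      (fun t => by rw [fP2]) (by omega) le_rfl (by push_cast [hr.le]; ring)
  · refine le_trans ?_ ((hA3 0 1).trans (by nlinarith [sq_nonneg (T : ℝ)]))
    rw [Nat.cast_le]
    apply card_le_card_of_injOn (fun y => (T - 1 - y.2, T - 1 - y.1))
    · intro y hy
      rw [mem_coe] at hy
      obtain ⟨hy1, hy0, hy2⟩ := mem_filter.1 hy
      obtain ⟨hy3, hy4⟩ := mem_product.1 hy1
      obtain ⟨hy5, hy6⟩ := refl_mem (hA1 1) hy3
      obtain ⟨hy7, hy8⟩ := refl_mem (hA1 0) hy4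
      have hy9 := mem_range.1 (hA1 0 hy7)
      rw [mem_coe]
      refine mem_filter.2 ⟨mem_product.2 ⟨hy7, hy5⟩,
        fun h => absurd (congrArg Prod.fst h) (by decide : ¬ (0 : Fin 4) = 1),
        fun hGd => hy2 ?_⟩
      rw [fP0, fP1] at hGd
      apply hG _ _ _ hGd
      · have h1 : ((T - 1 - y.1 : ℕ) : ℤ) = (T : ℤ) - 1 - y.1 := by omega
        have h2 : ((T - 1 - y.2 : ℕ) : ℤ) = (T : ℤ) - 1 - y.2 := by omega
        push_cast [hy0]
        rw [h1, h2]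
        ring
      · have h1 : M * (T - 1 - y.2) ≤ M * T := Nat.mul_le_mul_left _ (by omega)
        have h2 : ((M * (T - 1 - y.2) : ℕ) : ℤ) ≤ ((M * T : ℕ) : ℤ) := by exact_mod_cast h1
        push_cast at h2 ⊢
        have h4 : (0 : ℤ) ≤ (M : ℤ) * T := by positivity
        have h5 : (0 : ℤ) ≤ (x : ℤ) := by positivity
        have h6 : (0 : ℤ) ≤ (M : ℤ) := by positivity
        linarith
    · intro y hy z hz h
      rw [mem_coe] at hy hz
      have h1 := mem_range.1 (refl_sub hT1 (mem_product.1 (mem_filter.1 hy).1).1)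
      have h2 := mem_range.1 (refl_sub hT1 (mem_product.1 (mem_filter.1 hz).1).1)
      have h1' := mem_range.1 (refl_sub hT1 (mem_product.1 (mem_filter.1 hy).1).2)
      have h2' := mem_range.1 (refl_sub hT1 (mem_product.1 (mem_filter.1 hz).1).2)
      simp only [Prod.mk.injEq] at h
      exact Prod.ext (by omega) (by omega)
  · refine le_trans ?_ ((hA3 2 3).trans (by nlinarith [sq_nonneg (T : ℝ)]))
    rw [Nat.cast_le]
    apply card_le_card
    intro y hy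
    obtain ⟨hy1, hy0, hy2⟩ := mem_filter.1 hy
    obtain ⟨hy3, hy4⟩ := mem_product.1 hy1
    have hy5 := mem_range.1 (hA1 2 hy3)
    refine mem_filter.2 ⟨hy1, fun h => absurd (congrArg Prod.fst h) (by decide : ¬ (2 : Fin 4) = 3),
      fun hGd => hy2 ?_⟩
    rw [fP2, fP3] at hGd
    apply hG _ _ _ hGd
    · push_cast [hy0]
      ring
    · have h1 : M * y.1 ≤ M * T := Nat.mul_le_mul_left _ hy5.le
      have h2 : ((M * y.1 : ℕ) : ℤ) ≤ ((M * T : ℕ) : ℤ) := by exact_mod_cast h1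
      have h3 : (m : ℤ) ≤ x + M := by omega
      push_cast at h2 ⊢
      have h6 : (0 : ℤ) ≤ (M : ℤ) := by positivity
      linarith

end Pool.Agent.N646.RG
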